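import Pool.Agent.Helper16.LS.Top
import Pool.Agent.Helper62.LS.Conf

/-!
# LS (helper16): the conjecture for sets with integral volumes
-/

namespace Pool.Agent.Helper16.LS

open Finset Pool.Agent.Helper62.LS Pool.Agent.Helper5.SV

theorem keyC {m : ℕ} (hm : 1 ≤ m) : KeyC m := by
  intro B lo up R hlu hR hspan hcard
  classical
  obtain ⟨g, hgB, hg⟩ := hspan
  have h1 := conf_many (ι := {b // b ∈ B}) hm (fun b => (b : Fin m → ℤ)) Subtype.val_injective
    (fun b => (lo b : ℝ)) (fun b => (up b : ℝ))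
    (fun b => by exact_mod_cast hlu b b.2) (R : ℝ)
    (by
      intro τ h hh
      have hidx : ∀ i, ∃ t : ℤ, h i = t ∧ (t = lo (τ i) ∨ t = up (τ i)) := by
        intro i
        rcases hh i with h2 | h2
        · exact ⟨_, h2, Or.inl rfl⟩
        · exact ⟨_, h2, Or.inr rfl⟩
      choose t ht1 ht2 using hidx
      have h3 := hR (fun i => (τ i : Fin m → ℤ)) t (fun i => (τ i).2) ht2
      have h4 : (MM h (fun i => (Fin.cons 1 (fun p => (((τ i : Fin m → ℤ) p : ℤ) : ℝ)) :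
          Fin (m + 1) → ℝ))).det
          = (((MM t (fun i => (Fin.cons 1 (τ i : Fin m → ℤ) : Fin (m + 1) → ℤ))).det : ℤ) : ℝ) := by
        rw [Int.cast_det]
        congr 1
        ext i j
        refine Fin.cases ?_ (fun j => ?_) j
        · simp [MM, ht1]
        · refine Fin.cases ?_ (fun j => ?_) j
          · simp [MM]
          · simp [MM]
      rw [h4, ← Int.cast_abs]
      exact_mod_cast h3)
    ⟨fun i => ⟨g i, hgB i⟩, hg⟩
    (by rw [Fintype.card_coe]; exact hcard)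
  have h2 : ∑ b : {b // b ∈ B}, ((up b : ℝ) - (lo b : ℝ)) = ((∑ b ∈ B, (up b - lo b) : ℤ) : ℝ) := by
    rw [Finset.sum_coe_sort B (fun b => ((up b : ℝ) - (lo b : ℝ)))]
    push_cast
    rfl
  rw [h2] at h1
  have hm0 : (0 : ℝ) ≤ m := Nat.cast_nonneg m
  have hR0 : (0 : ℝ) ≤ R := Nat.cast_nonneg R
  have h3 : 1 / (36 * ((m : ℝ) + 1)) ≤ min (1 / 36) (1 / ((m : ℝ) + 1)) := by
    apply le_min
    · apply one_div_le_one_div_of_le (by norm_num)
      linarith
    · apply one_div_le_one_div_of_le (by linarith)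
      linarith
  have h4 : ((∑ b ∈ B, (up b - lo b) : ℤ) : ℝ) ≤ ((m : ℝ) + 1 - 1 / (36 * ((m : ℝ) + 1))) * R :=
    h1.trans (mul_le_mul_of_nonneg_right (by linarith) hR0)
  have h5 : 36 * ((m : ℝ) + 1) * ((∑ b ∈ B, (up b - lo b) : ℤ) : ℝ)
      ≤ (36 * ((m : ℝ) + 1) ^ 2 - 1) * R := by
    have h6 : (36 * ((m : ℝ) + 1) ^ 2 - 1) * R
        = 36 * ((m : ℝ) + 1) * (((m : ℝ) + 1 - 1 / (36 * ((m : ℝ) + 1))) * R) := by
      field_simp
    rw [h6]
    exact mul_le_mul_of_nonneg_left h4 (by positivity)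
  exact_mod_cast h5

/-- **The Erdős–Purdy–Straus conjecture for sets with integral volumes.** -/
theorem conj (m n : ℕ) (hm : 2 ≤ m) (hn : (72 * m ^ 4) ^ m < n)
    (S : Finset (Fin m → ℝ)) (hcard : S.card = n)
    (hS : affineSpan ℝ (S : Set (Fin m → ℝ)) = ⊤)
    (hint : ∀ v ∈ simplexVolumes (S : Set (Fin m → ℝ)), ∃ k : ℕ,
      v = k * smallest (S : Set (Fin m → ℝ))) :
    (((n - 1) / m : ℕ) : ℝ)
        ≤ largest (S : Set (Fin m → ℝ)) / smallest (S : Set (Fin m → ℝ)) ∧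
      (m ∣ n → largest (S : Set (Fin m → ℝ)) / smallest (S : Set (Fin m → ℝ))
          = (((n - 1) / m : ℕ) : ℝ) →
        ∃ Θ : (Fin m → ℝ) ≃ᵃ[ℝ] (Fin m → ℝ), Θ '' (S : Set (Fin m → ℝ)) = modelSet m n) :=
  main (fun _ h => keyC h) m n hm hn S hcard hS hint

end Pool.Agent.Helper16.LS
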