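import Mathlib

/-!
Feasibility of a finite system of two sided linear inequalities `l j ≤ B j ⬝ y ≤ u j`,
with certificates supported on circuits (minimal linear dependencies).
-/

namespace Pool.Helper16.LS

open Matrix Finset

theorem farkas_circuit {J : Type*} [Fintype J] [DecidableEq J] {r : ℕ}
    (B : J → Fin r → ℝ) (l u : J → ℝ) (hlu : ∀ j, l j ≤ u j)
    (hno : ¬ ∃ y : Fin r → ℝ, ∀ j, l j ≤ B j ⬝ᵥ y ∧ B j ⬝ᵥ y ≤ u j) :
    ∃ (S : Finset J) (β : J → ℝ), S.Nonempty ∧ (∀ j, β j ≠ 0 ↔ j ∈ S) ∧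
      (∀ j0 ∈ S, LinearIndependent ℝ (fun j : {j // j ∈ S.erase j0} => B j.1)) ∧
      ∑ j, β j • B j = 0 ∧
      ∑ j, β j * (if 0 < β j then u j else l j) < 0 := by
  classical
  -- minimal infeasible subset
  obtain ⟨S, hS, hmin⟩ : ∃ S : Finset J,
      (¬ ∃ y : Fin r → ℝ, ∀ j ∈ S, l j ≤ B j ⬝ᵥ y ∧ B j ⬝ᵥ y ≤ u j) ∧
      ∀ j1 ∈ S, ∃ y : Fin r → ℝ, ∀ j ∈ S.erase j1, l j ≤ B j ⬝ᵥ y ∧ B j ⬝ᵥ y ≤ u j := by
    by_contra hcon
    push Not at hcon
    have key : ∀ S : Finset J,
        ¬ ¬ ∃ y : Fin r → ℝ, ∀ j ∈ S, l j ≤ B j ⬝ᵥ y ∧ B j ⬝ᵥ y ≤ u j := by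
      intro S
      induction S using Finset.strongInduction with
      | _ S ih =>
        intro hS
        obtain ⟨j1, hj1, hj⟩ := hcon S (by
          intro y
          by_contra hy
          push Not at hy
          exact hS ⟨y, hy⟩)
        apply ih (S.erase j1) (Finset.erase_ssubset hj1)
        rintro ⟨y, hy⟩
        obtain ⟨j, hjm, hjb⟩ := hj y
        exact absurd (hy j hjm).2 (not_le.mpr (hjb (hy j hjm).1))
    apply key Finset.univ
    intro ⟨y, hy⟩
    exact hno ⟨y, fun j => hy j (Finset.mem_univ j)⟩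
  -- the map
  let φ : (Fin r → ℝ) →ₗ[ℝ] ({j // j ∈ S} → ℝ) :=
    Matrix.mulVecLin (Matrix.of fun (j : {j // j ∈ S}) => B j.1)
  have hφ : ∀ y j, φ y j = B j.1 ⬝ᵥ y := fun y j => rfl
  let R := LinearMap.range φ
  have hfeas : ∀ v : {j // j ∈ S} → ℝ, v ∈ R → (∀ j, l j.1 ≤ v j ∧ v j ≤ u j.1) → False := by
    rintro v ⟨y, rfl⟩ hv
    exact hS ⟨y, fun j hj => hv ⟨j, hj⟩⟩
  have hcardS : Fintype.card {j // j ∈ S} = S.card := Fintype.card_coe S
  -- Helly
  have hcard : S.card ≤ Module.finrank ℝ R + 1 := by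
    by_contra hc
    push Not at hc
    let G : {j // j ∈ S} → Set R := fun j => {v | l j.1 ≤ v.1 j ∧ v.1 j ≤ u j.1}
    have hconv : ∀ j ∈ (Finset.univ : Finset {j // j ∈ S}), Convex ℝ (G j) := by
      intro j _
      have h1 : G j = {v : R | l j.1 ≤ ((LinearMap.proj j).comp R.subtype : R →ₗ[ℝ] ℝ) v} ∩
          {v : R | ((LinearMap.proj j).comp R.subtype : R →ₗ[ℝ] ℝ) v ≤ u j.1} := by
        ext v; simp [G]
      rw [h1]
      exact (convex_halfSpace_ge (LinearMap.isLinear _) _).inter
        (convex_halfSpace_le (LinearMap.isLinear _) _)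
    have hH := Convex.helly_theorem (𝕜 := ℝ) (F := G)
      (s := (Finset.univ : Finset {j // j ∈ S}))
      (by rw [Finset.card_univ, hcardS]; omega) hconv (by
        intro I _ hI
        have hne : I ≠ Finset.univ := by
          intro h
          rw [h, Finset.card_univ, hcardS] at hI
          omega
        obtain ⟨j1, hj1⟩ : ∃ j1, j1 ∉ I := by
          by_contra hall
          push Not at hall
          exact hne (Finset.eq_univ_iff_forall.mpr hall)
        obtain ⟨y, hy⟩ := hmin j1.1 j1.2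
        refine ⟨⟨φ y, y, rfl⟩, ?_⟩
        simp only [Set.mem_iInter]
        intro j hj
        have : j.1 ∈ S.erase j1.1 := by
          refine Finset.mem_erase.mpr ⟨?_, j.2⟩
          intro h
          apply hj1
          have : j = j1 := Subtype.ext h
          rwa [this] at hj
        exact hy j.1 this)
    obtain ⟨v, hv⟩ := hH
    simp only [Set.mem_iInter] at hv
    exact hfeas v.1 v.2 fun j => hv j (Finset.mem_univ j)
  -- R is a hyperplane
  have hRtop : R < ⊤ := by
    rw [lt_top_iff_ne_top]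
    intro h
    exact hfeas (fun j => l j.1) (by rw [h]; trivial) fun j => ⟨le_refl _, hlu j.1⟩
  obtain ⟨f, hf0, hRf⟩ := Submodule.exists_le_ker_of_lt_top R hRtop
  have hker : R = LinearMap.ker f := by
    apply Submodule.eq_of_le_of_finrank_le hRf
    have h1 : LinearMap.ker f < ⊤ := by
      rw [lt_top_iff_ne_top]
      intro h
      exact hf0 (LinearMap.ker_eq_top.mp h)
    have h2 := Submodule.finrank_lt_finrank_of_lt h1
    rw [finrank_top, Module.finrank_fintype_fun_eq_card, hcardS] at h2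
    omega
  let γ : {j // j ∈ S} → ℝ := fun j => f (Pi.single j 1)
  have hfv : ∀ v, f v = ∑ j, v j * γ j := by
    intro v
    conv_lhs => rw [pi_eq_sum_univ' v]
    rw [map_sum]
    refine Finset.sum_congr rfl fun j _ => ?_
    rw [map_smul, smul_eq_mul]
  have hbox : ∀ v : {j // j ∈ S} → ℝ, (∀ j, l j.1 ≤ v j ∧ v j ≤ u j.1) → f v ≠ 0 := by
    intro v hv h0
    exact hfeas v (by rw [hker]; exact h0) hv
  have hγ : ∀ j, γ j ≠ 0 := by
    intro j1 h0
    obtain ⟨y, hy⟩ := hmin j1.1 j1.2
    apply hbox (Function.update (φ y) j1 (l j1.1))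
    · intro j
      by_cases h : j = j1
      · subst h; simpa using hlu j.1
      · rw [Function.update_of_ne h]
        exact hy j.1 (Finset.mem_erase.mpr ⟨fun h' => h (Subtype.ext h'), j.2⟩)
    · have h1 : f (φ y) = 0 := hRf ⟨y, rfl⟩
      rw [hfv] at h1 ⊢
      rw [← h1]
      refine Finset.sum_congr rfl fun j _ => ?_
      by_cases h : j = j1
      · subst h; simp [h0]
      · rw [Function.update_of_ne h]
  have hdep : ∀ y, ∑ j : {j // j ∈ S}, (B j.1 ⬝ᵥ y) * γ j = 0 := by
    intro y
    have h1 : f (φ y) = 0 := hRf ⟨y, rfl⟩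
    rw [hfv] at h1
    exact h1
  have hvec : ∑ j : {j // j ∈ S}, γ j • B j.1 = 0 := by
    ext i
    have h1 := hdep (Pi.single i 1)
    simp only [dotProduct_single, mul_one] at h1
    rw [Finset.sum_apply, Pi.zero_apply, ← h1]
    exact Finset.sum_congr rfl fun j _ => by simp [mul_comm]
  have hne : S.Nonempty := by
    by_contra h
    rw [Finset.not_nonempty_iff_eq_empty] at h
    subst h
    exact hS ⟨0, fun j hj => absurd hj (Finset.notMem_empty j)⟩
  have hind : ∀ j0 ∈ S, LinearIndependent ℝ (fun j : {j // j ∈ S.erase j0} => B j.1) := by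
    intro j0 hj0
    rw [Fintype.linearIndependent_iff]
    intro c hc j
    have hjS : j.1 ∈ S := Finset.mem_of_mem_erase j.2
    have hjne : j.1 ≠ j0 := Finset.ne_of_mem_erase j.2
    -- functional c vanishes on R
    have hcR : ∀ v ∈ R, ∑ i : {j // j ∈ S.erase j0},
        c i * v ⟨i.1, Finset.mem_of_mem_erase i.2⟩ = 0 := by
      rintro v ⟨y, rfl⟩
      have : ∑ i : {j // j ∈ S.erase j0}, c i * (B i.1 ⬝ᵥ y) =
          (∑ i : {j // j ∈ S.erase j0}, c i • B i.1) ⬝ᵥ y := by
        rw [sum_dotProduct]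
        exact Finset.sum_congr rfl fun i _ => by rw [smul_dotProduct, smul_eq_mul]
      rw [hc, zero_dotProduct] at this
      exact this
    let v : {j // j ∈ S} → ℝ := fun i =>
      if i.1 = j.1 then γ ⟨j0, hj0⟩ else if i.1 = j0 then - γ ⟨j.1, hjS⟩ else 0
    have hvR : v ∈ R := by
      rw [hker, LinearMap.mem_ker, hfv]
      have : ∀ i : {j // j ∈ S}, v i * γ i =
          (if i = ⟨j.1, hjS⟩ then γ ⟨j0, hj0⟩ * γ ⟨j.1, hjS⟩ else 0) +
          (if i = ⟨j0, hj0⟩ then - γ ⟨j.1, hjS⟩ * γ ⟨j0, hj0⟩ else 0) := by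
        intro i
        by_cases h1 : i = ⟨j.1, hjS⟩
        · subst h1
          have h3 : (⟨j.1, hjS⟩ : {j // j ∈ S}) ≠ ⟨j0, hj0⟩ := by
            intro h; exact hjne (congrArg Subtype.val h)
          simp [v, h3]
        · by_cases h2 : i = ⟨j0, hj0⟩
          · subst h2
            have h3 : (⟨j0, hj0⟩ : {j // j ∈ S}) ≠ ⟨j.1, hjS⟩ := h1
            simp [v, h3, Ne.symm hjne]
          · have h1' : i.1 ≠ j.1 := fun h => h1 (Subtype.ext h)
            have h2' : i.1 ≠ j0 := fun h => h2 (Subtype.ext h)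
            simp [v, h1, h2, h1', h2']
      rw [Finset.sum_congr rfl fun i _ => this i, Finset.sum_add_distrib,
        Finset.sum_ite_eq' , Finset.sum_ite_eq']
      simp
      ring
    have h0 := hcR v hvR
    have h1 : ∀ i : {j // j ∈ S.erase j0},
        c i * v ⟨i.1, Finset.mem_of_mem_erase i.2⟩ =
        if i = j then c j * γ ⟨j0, hj0⟩ else 0 := by
      intro i
      by_cases h : i = j
      · subst h; simp [v]
      · have h' : i.1 ≠ j.1 := fun h' => h (Subtype.ext h')
        have h'' : i.1 ≠ j0 := Finset.ne_of_mem_erase i.2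
        simp [v, h, h', h'']
    rw [Finset.sum_congr rfl fun i _ => h1 i, Finset.sum_ite_eq'] at h0
    simp only [Finset.mem_univ, if_true] at h0
    rcases mul_eq_zero.mp h0 with h | h
    · exact h
    · exact absurd h (hγ _)
  -- sign alternative
  let vmax : {j // j ∈ S} → ℝ := fun j => if 0 < γ j then u j.1 else l j.1
  let vmin : {j // j ∈ S} → ℝ := fun j => if 0 < γ j then l j.1 else u j.1
  have hvmax : ∀ j, l j.1 ≤ vmax j ∧ vmax j ≤ u j.1 := by
    intro j
    by_cases h : 0 < γ j
    · simp [vmax, h, hlu]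
    · simp [vmax, h, hlu]
  have hvmin : ∀ j, l j.1 ≤ vmin j ∧ vmin j ≤ u j.1 := by
    intro j
    by_cases h : 0 < γ j
    · simp [vmin, h, hlu]
    · simp [vmin, h, hlu]
  have hle : f vmin ≤ f vmax := by
    rw [hfv, hfv]
    refine Finset.sum_le_sum fun j _ => ?_
    by_cases h : 0 < γ j
    · simp only [vmin, vmax, h, if_true]
      exact mul_le_mul_of_nonneg_right (hlu j.1) h.le
    · simp only [vmin, vmax, h, if_false]
      exact mul_le_mul_of_nonpos_right (hlu j.1) (not_lt.mp h)
  have halt : f vmax < 0 ∨ 0 < f vmin := by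
    by_contra hc
    push Not at hc
    obtain ⟨h1, h2⟩ := hc
    have h1' : 0 < f vmax := lt_of_le_of_ne h1 (Ne.symm (hbox vmax hvmax))
    have h2' : f vmin < 0 := lt_of_le_of_ne h2 (hbox vmin hvmin)
    have hd : 0 < f vmax - f vmin := by linarith
    apply hbox ((f vmax / (f vmax - f vmin)) • vmin + (-(f vmin) / (f vmax - f vmin)) • vmax)
    · intro j
      have ha : 0 ≤ f vmax / (f vmax - f vmin) := by positivity
      have hb : 0 ≤ -(f vmin) / (f vmax - f vmin) :=
        div_nonneg (by linarith) hd.le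
      have hab : f vmax / (f vmax - f vmin) + -(f vmin) / (f vmax - f vmin) = 1 := by
        field_simp
        ring
      obtain ⟨p1, p2⟩ := hvmin j
      obtain ⟨q1, q2⟩ := hvmax j
      simp only [Pi.add_apply, Pi.smul_apply, smul_eq_mul]
      have e1 := mul_le_mul_of_nonneg_left p1 ha
      have e2 := mul_le_mul_of_nonneg_left q1 hb
      have e3 := mul_le_mul_of_nonneg_left p2 ha
      have e4 := mul_le_mul_of_nonneg_left q2 hb
      have e5 : f vmax / (f vmax - f vmin) * l j.1 + -(f vmin) / (f vmax - f vmin) * l j.1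
          = l j.1 := by rw [← add_mul, hab, one_mul]
      have e6 : f vmax / (f vmax - f vmin) * u j.1 + -(f vmin) / (f vmax - f vmin) * u j.1
          = u j.1 := by rw [← add_mul, hab, one_mul]
      constructor <;> linarith
    · rw [map_add, map_smul, map_smul, smul_eq_mul, smul_eq_mul]
      field_simp
      ring
  -- conclusion, up to sign
  have hsumext : ∀ (g : J → ℝ) (h : {j // j ∈ S} → ℝ), (∀ j : {j // j ∈ S}, g j.1 = h j) →
      (∀ j, j ∉ S → g j = 0) → ∑ j, g j = ∑ j, h j := by
    intro g h h1 h2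
    rw [← Finset.sum_subset (Finset.subset_univ S) (fun j _ hj => h2 j hj)]
    rw [← Finset.sum_coe_sort S g]
    exact Finset.sum_congr rfl fun j _ => h1 j
  have hsumvec : ∀ (g : J → Fin r → ℝ) (h : {j // j ∈ S} → Fin r → ℝ),
      (∀ j : {j // j ∈ S}, g j.1 = h j) →
      (∀ j, j ∉ S → g j = 0) → ∑ j, g j = ∑ j, h j := by
    intro g h h1 h2
    rw [← Finset.sum_subset (Finset.subset_univ S) (fun j _ hj => h2 j hj)]
    rw [← Finset.sum_coe_sort S g]
    exact Finset.sum_congr rfl fun j _ => h1 j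
  rcases halt with hneg | hpos
  · let β : J → ℝ := fun j => if h : j ∈ S then γ ⟨j, h⟩ else 0
    have hβ : ∀ j : {j // j ∈ S}, β j.1 = γ j := fun j => by simp [β]
    have hβ0 : ∀ j, j ∉ S → β j = 0 := fun j hj => by simp [β, hj]
    refine ⟨S, β, hne, ?_, hind, ?_, ?_⟩
    · intro j
      constructor
      · intro h
        by_contra hj
        exact h (hβ0 j hj)
      · intro hj
        rw [hβ ⟨j, hj⟩]
        exact hγ _
    · rw [hsumvec (fun j => β j • B j) (fun j => γ j • B j.1) (fun j => by simp [hβ j])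
        (fun j hj => by simp [hβ0 j hj])]
      exact hvec
    · rw [hsumext (fun j => β j * (if 0 < β j then u j else l j)) (fun j => vmax j * γ j)
        (fun j => by simp only [hβ j, vmax]; ring) (fun j hj => by simp [hβ0 j hj]),
        ← hfv]
      exact hneg
  · let β : J → ℝ := fun j => if h : j ∈ S then - γ ⟨j, h⟩ else 0
    have hβ : ∀ j : {j // j ∈ S}, β j.1 = - γ j := fun j => by simp [β]
    have hβ0 : ∀ j, j ∉ S → β j = 0 := fun j hj => by simp [β, hj]
    refine ⟨S, β, hne, ?_, hind, ?_, ?_⟩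
    · intro j
      constructor
      · intro h
        by_contra hj
        exact h (hβ0 j hj)
      · intro hj
        rw [hβ ⟨j, hj⟩]
        exact neg_ne_zero.mpr (hγ _)
    · rw [hsumvec (fun j => β j • B j) (fun j => (- γ j) • B j.1) (fun j => by simp [hβ j])
        (fun j hj => by simp [hβ0 j hj])]
      simp only [neg_smul, Finset.sum_neg_distrib, hvec, neg_zero]
    · rw [hsumext (fun j => β j * (if 0 < β j then u j else l j)) (fun j => - (vmin j * γ j))
        (fun j => by
          rw [hβ j]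
          by_cases h : 0 < γ j
          · have h' : ¬ (0 < - γ j) := by linarith
            simp only [h', vmin, h, if_true, if_false]
            ring
          · have h' : 0 < - γ j := by
              have := lt_of_le_of_ne (not_lt.mp h) (hγ j)
              linarith
            simp only [h', vmin, h, if_true, if_false]
            ring) (fun j hj => by simp [hβ0 j hj]),
        Finset.sum_neg_distrib, ← hfv]
      linarith

end Pool.Helper16.LS
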