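import Pool.Agent.Helper16.LS.Uniq

/-!
# LS (helper16): the set `S_{m,n}`
-/

namespace Pool.Agent.Helper16.LS

open Finset Pool.Agent.Helper62.LS Pool.Agent.Helper5.SV

/-- the vertices `0, e_1, …, e_m` of the base simplex -/
def bs (m : ℕ) (k : Fin (m + 1)) : Fin m → ℤ := fun p => if (p : ℕ) + 1 = (k : ℕ) then 1 else 0

theorem bdet_bs_id (m : ℕ) : bdet (bs m) id = 1 := by
  have h1 : ((bdet (bs m) id : ℤ) : ℝ) = 1 := by
    have h2 : ((bdet (bs m) id : ℤ) : ℝ) = G (fun k => (fun q => (bs m k q : ℝ))) := by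
      unfold bdet G
      rw [Int.cast_det]
      congr 1
      ext i j
      refine Fin.cases ?_ (fun j => ?_) j
      · simp
      · simp
    rw [h2, G_eq_D]
    unfold D
    have h3 : (Matrix.of fun i : Fin m => ((fun q => (bs m i.succ q : ℝ)) - (fun q => (bs m 0 q : ℝ))
        : Fin m → ℝ)) = 1 := by
      ext i j
      simp only [Matrix.of_apply, Pi.sub_apply, bs]
      by_cases hij : i = j
      · subst hij
        simp
      · rw [Matrix.one_apply_ne hij]
        have : ¬ (j : ℕ) = (i : ℕ) := fun h => hij (Fin.ext h.symm)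
        simp [this]
    rw [h3, Matrix.det_one]
  exact_mod_cast h1

theorem abs_bdet_bs {m : ℕ} (g : Fin (m + 1) → Fin (m + 1)) :
    |bdet (bs m) g| ≤ 1 := by
  by_cases hg : Function.Injective g
  · have hb : Function.Bijective g := Finite.injective_iff_bijective.1 hg
    set σ : Equiv.Perm (Fin (m + 1)) := Equiv.ofBijective g hb
    have h1 : bdet (bs m) g = ((Matrix.of fun k => (Fin.cons 1 (bs m (id k)) :
        Fin (m + 1) → ℤ)).submatrix σ (Equiv.refl _)).det := rfl
    rw [h1, Matrix.abs_det_submatrix_equiv_equiv]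
    have h2 := bdet_bs_id m
    unfold bdet at h2
    rw [h2]
    simp
  · have h1 : bdet (bs m) g = 0 := by
      unfold Function.Injective at hg
      push Not at hg
      obtain ⟨i, j, hij, hne⟩ := hg
      unfold bdet
      apply Matrix.det_zero_of_row_eq hne
      funext l
      simp [Matrix.of_apply, hij]
    rw [h1]
    simp

theorem MM_bs {m : ℕ} (t : Fin (m + 2) → ℤ) (k : Fin (m + 2) → Fin (m + 1)) :
    ∃ i j, k i = k j ∧
      |(MM t (fun i => (Fin.cons 1 (bs m (k i)) : Fin (m + 1) → ℤ))).det| ≤ |t i - t j| := by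
  obtain ⟨i, j, hij, hk⟩ := Fintype.exists_ne_map_eq_of_card_lt k (by simp)
  refine ⟨i, j, hk, ?_⟩
  have hzero : ∀ p, p ≠ i → p ≠ j → bdet (bs m) (fun q => k (p.succAbove q)) = 0 := by
    intro p hpi hpj
    obtain ⟨a, ha⟩ := Fin.exists_succAbove_eq hpi.symm
    obtain ⟨b, hb⟩ := Fin.exists_succAbove_eq hpj.symm
    have hab : a ≠ b := by
      rintro rfl
      exact hij (ha.symm.trans hb)
    unfold bdet
    apply Matrix.det_zero_of_row_eq hab
    funext l
    simp [Matrix.of_apply, ha, hb, hk]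
  have h1 := bdet_sum (bs m) k
  rw [Finset.sum_eq_add i j hij (fun p _ hp => by rw [hzero p hp.1 hp.2, mul_zero])
    (by simp) (by simp)] at h1
  have h2 : (MM t (fun i => (Fin.cons 1 (bs m (k i)) : Fin (m + 1) → ℤ))).det
      = (t i - t j) * ((-1) ^ (i : ℕ) * bdet (bs m) (fun q => k (i.succAbove q))) := by
    rw [MM_expand, Finset.sum_eq_add i j hij]
    · have h3 : (-1) ^ (j : ℕ) * bdet (bs m) (fun q => k (j.succAbove q))
          = - ((-1) ^ (i : ℕ) * bdet (bs m) (fun q => k (i.succAbove q))) := by linarith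
      unfold bdet at h3 ⊢
      linear_combination (t j) * h3
    · intro p _ hp
      have := hzero p hp.1 hp.2
      unfold bdet at this
      rw [this, mul_zero]
    · simp
    · simp
  rw [h2, abs_mul, abs_mul, abs_pow, abs_neg, abs_one, one_pow, one_mul]
  calc |t i - t j| * |bdet (bs m) (fun q => k (i.succAbove q))| ≤ |t i - t j| * 1 :=
        mul_le_mul_of_nonneg_left (abs_bdet_bs _) (abs_nonneg _)
    _ = _ := mul_one _

theorem G_model {m : ℕ} (k : Fin (m + 2) → Fin (m + 1)) (t : Fin (m + 2) → ℤ) :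
    |G (fun i => modelPt (m + 1) (k i) (t i))|
      = |((MM t (fun i => (Fin.cons 1 (bs m (k i)) : Fin (m + 1) → ℤ))).det : ℤ)| := by
  have h1 : (Matrix.of fun i => (Fin.cons 1 (modelPt (m + 1) (k i) (t i)) : Fin (m + 2) → ℝ))
      = ((MM t (fun i => (Fin.cons 1 (bs m (k i)) : Fin (m + 1) → ℤ))).map
          (Int.cast : ℤ → ℝ)).submatrix (Equiv.refl _) (finRotate (m + 2)) := by
    ext i c
    refine Fin.lastCases ?_ (fun c => ?_) c
    · have h2 : (Fin.last (m + 1)) = (Fin.last m).succ := rfl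
      have h3 : (finRotate (m + 2)) (Fin.last (m + 1)) = 0 := finRotate_last
      simp only [Matrix.submatrix_apply, Matrix.map_apply, h3, Matrix.of_apply]
      rw [h2, Fin.cons_succ]
      have h4 := (k i).isLt
      have h5 : ¬ (m + 2 = (k i : ℕ) + 1) := by omega
      simp [modelPt, MM]
      try omega
    · have h3 : (finRotate (m + 2)) c.castSucc = c.succ := by
        rw [finRotate_apply]
        simp
      simp only [Matrix.submatrix_apply, Matrix.map_apply, h3, Matrix.of_apply]
      refine Fin.cases ?_ (fun c => ?_) c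
      · simp [MM]
      · have h4 := c.isLt
        have h5 : ¬ ((c : ℕ) + 1 = m + 1) := by omega
        simp only [Fin.castSucc_succ, Fin.cons_succ, MM, Matrix.of_apply]
        simp only [modelPt, bs, Fin.val_castSucc, h5, if_false, mul_zero, add_zero]
        push_cast
        congr 1
  unfold G
  rw [h1, Matrix.abs_det_submatrix_equiv_equiv, Int.cast_abs, Int.cast_det]

theorem modelPt_inj {m k k' : ℕ} {t t' : ℝ} (hk : k < m + 1) (hk' : k' < m + 1)
    (h : modelPt (m + 1) k t = modelPt (m + 1) k' t') : k = k' ∧ t = t' := by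
  have ht : t = t' := by
    have h1 := congrFun h (Fin.last m)
    have h2 : ¬ (m + 2 = k + 1) := by omega
    have h3 : ¬ (m + 2 = k' + 1) := by omega
    simpa [modelPt, h2, h3] using h1
  refine ⟨?_, ht⟩
  have key : ∀ a b : ℕ, 0 < a → a < m + 1 → modelPt (m + 1) a t = modelPt (m + 1) b t' → a = b := by
    intro a b ha ha' hab
    have h1 := congrFun hab ⟨a - 1, by omega⟩
    have h2 : ¬ (a - 1 + 1 = m + 1) := by omega
    have h3 : a - 1 + 2 = a + 1 := by omega
    simp only [modelPt, h2, if_false, mul_zero, add_zero, h3, if_true] at h1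
    by_contra hne
    rw [if_neg (by omega)] at h1
    exact one_ne_zero h1
  rcases Nat.eq_zero_or_pos k with h0 | h0
  · rcases Nat.eq_zero_or_pos k' with h0' | h0'
    · rw [h0, h0']
    · subst ht
      exact (key k' k h0' hk' h.symm).symm
  · exact key k k' h0 hk h

theorem modelSet_eq' {m n : ℕ} (hn : m + 1 ≤ n) :
    modelSet (m + 1) n = {y | ∃ k : Fin (m + 1), ∃ j : ℕ, j * (m + 1) + (k : ℕ) < n ∧
      y = modelPt (m + 1) k j} := by
  ext y
  constructor
  · rintro ⟨k, j, hk1, hkm, hj, rfl⟩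
    obtain ⟨k, rfl⟩ : ∃ k', k = k' + 1 := ⟨k - 1, by omega⟩
    rw [Nat.le_div_iff_mul_le (show 0 < m + 1 by omega)] at hj
    refine ⟨⟨k, by omega⟩, j, ?_, rfl⟩
    show j * (m + 1) + k < n
    omega
  · rintro ⟨k, j, hj, rfl⟩
    refine ⟨(k : ℕ) + 1, j, by omega, by omega, ?_, rfl⟩
    rw [Nat.le_div_iff_mul_le (show 0 < m + 1 by omega)]
    omega

/-- **The set `S_{m,n}`**: it has `n` points, spans, all simplex volumes are integer multiples of
the smallest positive one, and the ratio is `[(n-1)/m]`. -/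
theorem model_facts {m n : ℕ} (hn : m + 2 ≤ n) :
    ∃ S : Finset (Fin (m + 1) → ℝ), (S : Set (Fin (m + 1) → ℝ)) = modelSet (m + 1) n ∧
      S.card = n ∧ affineSpan ℝ (S : Set (Fin (m + 1) → ℝ)) = ⊤ ∧
      (∀ v ∈ simplexVolumes (S : Set (Fin (m + 1) → ℝ)), ∃ k : ℕ,
        v = k * smallest (S : Set (Fin (m + 1) → ℝ))) ∧
      largest (S : Set (Fin (m + 1) → ℝ)) / smallest (S : Set (Fin (m + 1) → ℝ))
        = (((n - 1) / (m + 1) : ℕ) : ℝ) := by
  classical
  have hV : 0 < V (m + 1) := V_pos (m + 1)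
  set N : ℕ := (n - 1) / (m + 1) with hN
  have hN1 : 1 ≤ N := by
    rw [hN, Nat.le_div_iff_mul_le (show 0 < m + 1 by omega)]
    omega
  have hNn : N * (m + 1) < n := by
    have := Nat.div_mul_le_self (n - 1) (m + 1)
    rw [← hN] at this
    omega
  set pt : ℕ → (Fin (m + 1) → ℝ) := fun r =>
    modelPt (m + 1) (r % (m + 1)) ((r / (m + 1) : ℕ) : ℝ) with hpt
  set S : Finset (Fin (m + 1) → ℝ) := (Finset.range n).image pt with hS
  have hmem : ∀ y, y ∈ S ↔ ∃ k : Fin (m + 1), ∃ j : ℕ, j * (m + 1) + (k : ℕ) < n ∧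
      y = modelPt (m + 1) k j := by
    intro y
    rw [hS, Finset.mem_image]
    constructor
    · rintro ⟨r, hr, rfl⟩
      rw [Finset.mem_range] at hr
      refine ⟨⟨r % (m + 1), Nat.mod_lt _ (Nat.succ_pos m)⟩, r / (m + 1), ?_, rfl⟩
      show r / (m + 1) * (m + 1) + r % (m + 1) < n
      rw [Nat.div_add_mod']
      exact hr
    · rintro ⟨k, j, hj, rfl⟩
      refine ⟨j * (m + 1) + (k : ℕ), Finset.mem_range.2 hj, ?_⟩
      rw [hpt]
      have h1 : (j * (m + 1) + (k : ℕ)) % (m + 1) = k := by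
        rw [mul_comm, Nat.mul_add_mod]
        exact Nat.mod_eq_of_lt k.isLt
      have h2 : (j * (m + 1) + (k : ℕ)) / (m + 1) = j := by
        rw [mul_comm, Nat.mul_add_div (Nat.succ_pos m), Nat.div_eq_of_lt k.isLt, add_zero]
      simp only [h1, h2]
  have hSset : (S : Set (Fin (m + 1) → ℝ)) = modelSet (m + 1) n := by
    rw [modelSet_eq' (by omega)]
    ext y
    rw [Finset.mem_coe, hmem]
    rfl
  have hcard : S.card = n := by
    rw [hS, Finset.card_image_of_injective, Finset.card_range]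
    intro r r' hrr
    obtain ⟨h1, h2⟩ := modelPt_inj (Nat.mod_lt _ (Nat.succ_pos m)) (Nat.mod_lt _ (Nat.succ_pos m))
      hrr
    have h3 : r / (m + 1) = r' / (m + 1) := by exact_mod_cast h2
    rw [← Nat.div_add_mod r (m + 1), ← Nat.div_add_mod r' (m + 1), h1, h3]
  -- special points
  have hp0 : ∀ k : Fin (m + 1), modelPt (m + 1) k ((0 : ℕ) : ℝ) ∈ S := by
    intro k
    rw [hmem]
    exact ⟨k, 0, by have := k.isLt; omega, rfl⟩
  have hpj : ∀ j : ℕ, j ≤ N → modelPt (m + 1) (0 : Fin (m + 1)) (j : ℝ) ∈ S := by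
    intro j hj
    rw [hmem]
    refine ⟨0, j, ?_, rfl⟩
    have : j * (m + 1) ≤ N * (m + 1) := Nat.mul_le_mul_right _ hj
    simp only [Fin.val_zero, add_zero]
    omega
  have hspan : affineSpan ℝ (S : Set (Fin (m + 1) → ℝ)) = ⊤ := by
    rw [AffineSubspace.affineSpan_eq_top_iff_vectorSpan_eq_top_of_nonempty ℝ _ _
      ⟨_, Finset.mem_coe.2 (hp0 0)⟩, eq_top_iff]
    intro y _
    rw [← Finset.univ_sum_single y]
    apply Submodule.sum_mem
    intro i _
    have h1 : (Pi.single i (y i) : Fin (m + 1) → ℝ) = y i • Pi.single i 1 := by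
      rw [← Pi.single_smul, smul_eq_mul, mul_one]
    rw [h1]
    apply Submodule.smul_mem
    refine Fin.lastCases ?_ (fun i => ?_) i
    · have h2 : (Pi.single (Fin.last m) 1 : Fin (m + 1) → ℝ)
          = modelPt (m + 1) (0 : Fin (m + 1)) ((1 : ℕ) : ℝ)
            -ᵥ modelPt (m + 1) (0 : Fin (m + 1)) ((0 : ℕ) : ℝ) := by
        funext p
        rw [vsub_eq_sub, Pi.sub_apply]
        refine Fin.lastCases ?_ (fun p => ?_) p
        · simp [modelPt]
        · have := p.isLt
          have h3 : ¬ ((p : ℕ) = m) := by omega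
          rw [Pi.single_eq_of_ne (Fin.castSucc_lt_last p).ne]
          simp [modelPt, h3]
      rw [h2]
      exact vsub_mem_vectorSpan ℝ (Finset.mem_coe.2 (hpj 1 hN1)) (Finset.mem_coe.2 (hp0 0))
    · have h2 : (Pi.single i.castSucc 1 : Fin (m + 1) → ℝ)
          = modelPt (m + 1) (i.succ : Fin (m + 1)) ((0 : ℕ) : ℝ)
            -ᵥ modelPt (m + 1) (0 : Fin (m + 1)) ((0 : ℕ) : ℝ) := by
        funext p
        rw [vsub_eq_sub, Pi.sub_apply]
        by_cases hp : p = i.castSucc
        · subst hp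
          simp [modelPt]
        · have h3 : ¬ ((p : ℕ) = (i : ℕ)) := fun h => hp (Fin.ext h)
          rw [Pi.single_eq_of_ne hp]
          simp [modelPt, h3]
      rw [h2]
      exact vsub_mem_vectorSpan ℝ (Finset.mem_coe.2 (hp0 _)) (Finset.mem_coe.2 (hp0 0))
  -- the volumes
  have hvol : ∀ v ∈ simplexVolumes (S : Set (Fin (m + 1) → ℝ)), ∃ k : ℕ, k ≤ N ∧
      v = k * V (m + 1) := by
    rintro v ⟨x, _, hxS, rfl⟩
    have hx : ∀ i, ∃ k : Fin (m + 1), ∃ j : ℕ, j * (m + 1) + (k : ℕ) < n ∧
        x i = modelPt (m + 1) k j := fun i => (hmem _).1 (hxS i)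
    choose k j hj hxk using hx
    have hx' : x = fun i => modelPt (m + 1) (k i) (((j i : ℕ) : ℤ) : ℝ) := by
      funext i
      rw [hxk]
      simp
    rw [simplexVolume_eq, hx', G_model]
    set d := (MM (fun i => ((j i : ℕ) : ℤ))
      (fun i => (Fin.cons 1 (bs m (k i)) : Fin (m + 1) → ℤ))).det with hd
    refine ⟨d.natAbs, ?_, ?_⟩
    · obtain ⟨a, b, hab, hle⟩ := MM_bs (fun i => ((j i : ℕ) : ℤ)) k
      rw [← hd] at hle
      have h1 : ∀ c, j c ≤ N := by
        intro c
        rw [hN, Nat.le_div_iff_mul_le (show 0 < m + 1 by omega)]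
        have := hj c
        omega
      have h2 := h1 a
      have h3 := h1 b
      have h4 : |((j a : ℕ) : ℤ) - ((j b : ℕ) : ℤ)| ≤ N := by
        rw [abs_le]
        constructor <;> omega
      have h5 : (d.natAbs : ℤ) = |d| := Int.natCast_natAbs d
      have h6 : (d.natAbs : ℤ) ≤ N := by rw [h5]; exact hle.trans h4
      exact_mod_cast h6
    · congr 1
      rw [← Int.natCast_natAbs, Int.cast_natCast]
  have hex : ∀ a : ℕ, 1 ≤ a → a ≤ N →
      (a : ℝ) * V (m + 1) ∈ simplexVolumes (S : Set (Fin (m + 1) → ℝ)) := by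
    intro a ha1 haN
    set k : Fin (m + 2) → Fin (m + 1) := Fin.cons 0 id with hk
    set t : Fin (m + 2) → ℤ := Fin.cons (a : ℤ) (fun _ => 0) with ht
    have hd : (MM t (fun i => (Fin.cons 1 (bs m (k i)) : Fin (m + 1) → ℤ))).det = a := by
      rw [MM_expand, Fin.sum_univ_succ]
      have h1 : ∀ i : Fin (m + 1), (-1) ^ ((i.succ : Fin (m + 2)) : ℕ) * t i.succ
          * (Matrix.of fun j : Fin (m + 1) =>
            (Fin.cons 1 (bs m (k (i.succ.succAbove j))) : Fin (m + 1) → ℤ)).det = 0 := by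
        intro i
        rw [ht, Fin.cons_succ]
        ring
      simp only [h1, Finset.sum_const_zero, add_zero]
      have h2 : (Matrix.of fun j : Fin (m + 1) =>
            (Fin.cons 1 (bs m (k ((0 : Fin (m + 2)).succAbove j))) : Fin (m + 1) → ℤ)).det = 1 := by
        have h3 := bdet_bs_id m
        unfold bdet at h3
        simpa [hk] using h3
      rw [h2, ht, Fin.cons_zero]
      simp
    have hG : |G (fun i => modelPt (m + 1) (k i) (t i))| = a := by
      rw [G_model, hd]
      simp
    refine ⟨fun i => modelPt (m + 1) (k i) (t i), ?_, ?_, ?_⟩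
    · intro i j hij
      by_contra hne
      have h0 : G (fun i => modelPt (m + 1) (k i) (t i)) = 0 := by
        unfold G
        apply Matrix.det_zero_of_row_eq hne
        funext l
        have : modelPt (m + 1) (k i) (t i) = modelPt (m + 1) (k j) (t j) := hij
        simp [Matrix.of_apply, this]
      rw [h0, abs_zero] at hG
      have : (a : ℝ) = 0 := hG.symm
      have : a = 0 := by exact_mod_cast this
      omega
    · intro i
      refine Fin.cases ?_ (fun i => ?_) i
      · have := hpj a haN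
        simpa [hk, ht] using this
      · have := hp0 i
        simpa [hk, ht] using this
    · rw [simplexVolume_eq, hG]
  have hsm : smallest (S : Set (Fin (m + 1) → ℝ)) = V (m + 1) := by
    apply IsLeast.csInf_eq
    constructor
    · have := hex 1 le_rfl hN1
      rw [Nat.cast_one, one_mul] at this
      exact ⟨this, hV⟩
    · rintro v ⟨hv, hvpos⟩
      obtain ⟨k, _, rfl⟩ := hvol v hv
      have hk : 1 ≤ k := by
        rcases Nat.eq_zero_or_pos k with h | h
        · rw [h] at hvpos
          simp at hvpos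
        · exact h
      have : (1 : ℝ) ≤ k := by exact_mod_cast hk
      nlinarith
  have hlg : largest (S : Set (Fin (m + 1) → ℝ)) = N * V (m + 1) := by
    apply IsGreatest.csSup_eq
    constructor
    · exact hex N hN1 le_rfl
    · rintro v hv
      obtain ⟨k, hk, rfl⟩ := hvol v hv
      have : (k : ℝ) ≤ N := by exact_mod_cast hk
      exact mul_le_mul_of_nonneg_right this hV.le
  refine ⟨S, hSset, hcard, hspan, ?_, ?_⟩
  · intro v hv
    obtain ⟨k, _, rfl⟩ := hvol v hv
    exact ⟨k, by rw [hsm]⟩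
  · rw [hlg, hsm]
    field_simp

end Pool.Agent.Helper16.LS
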