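import Pool.Agent.Helper62.LS.Conf
import Pool.Agent.Helper62.LS.NF
import Pool.Agent.Helper5.FB.Sets

/-!
# LS (helper16): sets with an integral projection
-/

namespace Pool.Agent.Helper16.LS

open Finset Pool.Agent.Helper62.LS Pool.Agent.Helper80.VR Pool.Agent.Helper5.FB

theorem det_rows_map {k : ℕ} (L : (Fin k → ℝ) →ₗ[ℝ] (Fin k → ℝ)) (A : Fin k → Fin k → ℝ) :
    (Matrix.of fun i => L (A i)).det = (Matrix.of fun i => A i).det * LinearMap.det L := by
  have h1 : (Matrix.of fun i => L (A i))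
      = (Matrix.of fun i => A i) * (LinearMap.toMatrix' L).transpose := by
    ext i j
    have h2 : ((Matrix.of fun i => A i) * (LinearMap.toMatrix' L).transpose) i j
        = (LinearMap.toMatrix' L).mulVec (A i) j := by
      simp only [Matrix.mul_apply, Matrix.transpose_apply, Matrix.mulVec, dotProduct,
        Matrix.of_apply]
      exact Finset.sum_congr rfl fun k _ => mul_comm _ _
    rw [h2, LinearMap.toMatrix'_mulVec, Matrix.of_apply]
  rw [h1, Matrix.det_mul, Matrix.det_transpose, LinearMap.det_toMatrix']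

/-- scale of an affine bijection -/
theorem affine_scale {m : ℕ} (Φ : (Fin m → ℝ) ≃ᵃ[ℝ] (Fin m → ℝ)) :
    ∃ c : ℝ, c ≠ 0 ∧ ∀ x : Fin (m + 1) → (Fin m → ℝ),
      (Matrix.of fun k => (Fin.cons 1 (Φ (x k)) : Fin (m + 1) → ℝ)).det
      = (Matrix.of fun k => (Fin.cons 1 (x k) : Fin (m + 1) → ℝ)).det * c := by
  let L : (Fin (m + 1) → ℝ) →ₗ[ℝ] (Fin (m + 1) → ℝ) :=
    { toFun := fun y => Fin.cons (y 0) (Φ.linear (Fin.tail y) + y 0 • Φ 0)
      map_add' := by
        intro x y
        have ht : (Fin.tail (x + y) : Fin m → ℝ) = Fin.tail x + Fin.tail y := rfl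
        funext k
        refine Fin.cases ?_ (fun k => ?_) k
        · simp only [Fin.cons_zero, Pi.add_apply]
        · simp only [Fin.cons_succ, Pi.add_apply, ht, map_add, add_smul]
          ring
      map_smul' := by
        intro a x
        have ht : (Fin.tail (a • x) : Fin m → ℝ) = a • Fin.tail x := rfl
        funext k
        refine Fin.cases ?_ (fun k => ?_) k
        · simp only [Fin.cons_zero, Pi.smul_apply, RingHom.id_apply]
        · simp only [Fin.cons_succ, Pi.add_apply, Pi.smul_apply, ht, map_smul, RingHom.id_apply,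
            smul_eq_mul]
          ring }
  have hL : ∀ y, L y = Fin.cons (y 0) (Φ.linear (Fin.tail y) + y 0 • Φ 0) := fun y => rfl
  have hinj : Function.Injective L := by
    rw [← LinearMap.ker_eq_bot, LinearMap.ker_eq_bot']
    intro y hy
    rw [hL] at hy
    have h2 : y 0 = 0 := by
      have := congrFun hy 0
      rwa [Fin.cons_zero] at this
    have h3 : Φ.linear (Fin.tail y) = 0 := by
      funext k
      have := congrFun hy k.succ
      rw [Fin.cons_succ, h2, zero_smul, add_zero] at this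
      exact this
    have h4 : Fin.tail y = 0 := by
      rw [← map_zero Φ.linear] at h3
      exact Φ.linear.injective h3
    funext k
    refine Fin.cases ?_ (fun k => ?_) k
    · exact h2
    · exact congrFun h4 k
  refine ⟨LinearMap.det L, ?_, fun x => ?_⟩
  · have h1 := (LinearEquiv.isUnit_det' (LinearEquiv.ofInjectiveEndo L hinj)).ne_zero
    have e : ((LinearEquiv.ofInjectiveEndo L hinj : (Fin (m + 1) → ℝ) ≃ₗ[ℝ] (Fin (m + 1) → ℝ)) :
        (Fin (m + 1) → ℝ) →ₗ[ℝ] (Fin (m + 1) → ℝ)) = L := by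
      ext x
      rfl
    rwa [e] at h1
  · rw [← det_rows_map]
    congr 2
    funext k
    rw [hL, Fin.cons_zero, Fin.tail_cons, one_smul]
    congr 1
    have h1 := Φ.map_vadd 0 (x k)
    rw [vadd_eq_add, vadd_eq_add, add_zero] at h1
    exact h1

/-- scale of the map `height and affine image of the projection` -/
theorem exists_scale' {m : ℕ} (π : (Fin (m + 1) → ℝ) →ₗ[ℝ] (Fin m → ℝ))
    (Φ : (Fin m → ℝ) ≃ᵃ[ℝ] (Fin m → ℝ))
    (φ : (Fin (m + 1) → ℝ) →ₗ[ℝ] ℝ) (hφ : ∀ x, π x = 0 → φ x = 0 → x = 0) :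
    ∃ c : ℝ, c ≠ 0 ∧ ∀ x : Fin (m + 2) → (Fin (m + 1) → ℝ),
      (Matrix.of fun k => (Fin.cons (φ (x k)) (Fin.cons 1 (Φ (π (x k))) : Fin (m + 1) → ℝ) :
        Fin (m + 2) → ℝ)).det
      = (Matrix.of fun k => (Fin.cons 1 (x k) : Fin (m + 2) → ℝ)).det * c := by
  let L : (Fin (m + 2) → ℝ) →ₗ[ℝ] (Fin (m + 2) → ℝ) :=
    { toFun := fun y => Fin.cons (φ (Fin.tail y)) (Fin.cons (y 0)
        (Φ.linear (π (Fin.tail y)) + y 0 • Φ 0) : Fin (m + 1) → ℝ)
      map_add' := by
        intro x y
        have ht : (Fin.tail (x + y) : Fin (m + 1) → ℝ) = Fin.tail x + Fin.tail y := rfl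
        funext k
        refine Fin.cases ?_ (fun k => ?_) k
        · simp only [Fin.cons_zero, Pi.add_apply, ht, map_add]
        · refine Fin.cases ?_ (fun k => ?_) k
          · simp only [Fin.cons_succ, Fin.cons_zero, Pi.add_apply]
          · simp only [Fin.cons_succ, Pi.add_apply, ht, map_add, add_smul]
            ring
      map_smul' := by
        intro a x
        have ht : (Fin.tail (a • x) : Fin (m + 1) → ℝ) = a • Fin.tail x := rfl
        funext k
        refine Fin.cases ?_ (fun k => ?_) k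
        · simp only [Fin.cons_zero, Pi.smul_apply, ht, map_smul, RingHom.id_apply]
        · refine Fin.cases ?_ (fun k => ?_) k
          · simp only [Fin.cons_succ, Fin.cons_zero, Pi.smul_apply, RingHom.id_apply]
          · simp only [Fin.cons_succ, Pi.add_apply, Pi.smul_apply, ht, map_smul,
              RingHom.id_apply, smul_eq_mul]
            ring }
  have hL : ∀ y, L y = Fin.cons (φ (Fin.tail y)) (Fin.cons (y 0)
        (Φ.linear (π (Fin.tail y)) + y 0 • Φ 0) : Fin (m + 1) → ℝ) := fun y => rfl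
  have hinj : Function.Injective L := by
    rw [← LinearMap.ker_eq_bot, LinearMap.ker_eq_bot']
    intro y hy
    rw [hL] at hy
    have h1 : φ (Fin.tail y) = 0 := by
      have := congrFun hy 0
      rwa [Fin.cons_zero] at this
    have h2 : y 0 = 0 := by
      have := congrFun hy (Fin.succ 0)
      rwa [Fin.cons_succ, Fin.cons_zero] at this
    have h3 : Φ.linear (π (Fin.tail y)) = 0 := by
      funext k
      have := congrFun hy k.succ.succ
      rw [Fin.cons_succ, Fin.cons_succ, h2, zero_smul, add_zero] at this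
      exact this
    have h3' : π (Fin.tail y) = 0 := by
      rw [← map_zero Φ.linear] at h3
      exact Φ.linear.injective h3
    have h4 := hφ _ h3' h1
    funext k
    refine Fin.cases ?_ (fun k => ?_) k
    · exact h2
    · exact congrFun h4 k
  refine ⟨LinearMap.det L, ?_, fun x => ?_⟩
  · have h1 := (LinearEquiv.isUnit_det' (LinearEquiv.ofInjectiveEndo L hinj)).ne_zero
    have e : ((LinearEquiv.ofInjectiveEndo L hinj : (Fin (m + 2) → ℝ) ≃ₗ[ℝ] (Fin (m + 2) → ℝ)) :
        (Fin (m + 2) → ℝ) →ₗ[ℝ] (Fin (m + 2) → ℝ)) = L := by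
      ext x
      rfl
    rwa [e] at h1
  · rw [← det_rows_map]
    congr 2
    funext k
    rw [hL, Fin.cons_zero, Fin.tail_cons, one_smul]
    congr 2
    have h1 := Φ.map_vadd 0 (π (x k))
    rw [vadd_eq_add, vadd_eq_add, add_zero] at h1
    exact h1

/-- **Sets with an integral projection.** All simplex volumes of the projection are integer
multiples of the smallest positive one, and every point of the projection is a vertex of a
nondegenerate simplex of volume at most `μ` times the smallest one. -/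
theorem integral_projection {m : ℕ} (S : Finset (Fin (m + 1) → ℝ))
    (hS : affineSpan ℝ (S : Set (Fin (m + 1) → ℝ)) = ⊤)
    (π : (Fin (m + 1) → ℝ) →ₗ[ℝ] (Fin m → ℝ)) (hπ : Function.Surjective π)
    (hint : ∀ v ∈ Helper5.SV.simplexVolumes (π '' (S : Set (Fin (m + 1) → ℝ))), ∃ k : ℕ,
      v = k * Helper5.SV.smallest (π '' (S : Set (Fin (m + 1) → ℝ))))
    (μ : ℝ) (hμ : ∀ b ∈ π '' (S : Set (Fin (m + 1) → ℝ)), ∃ y : Fin (m + 1) → (Fin m → ℝ),
      (∀ i, y i ∈ π '' (S : Set (Fin (m + 1) → ℝ))) ∧ y 0 = b ∧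
      0 < Helper5.SV.simplexVolume y ∧
      Helper5.SV.simplexVolume y
        ≤ μ * Helper5.SV.smallest (π '' (S : Set (Fin (m + 1) → ℝ)))) :
    ((#S : ℝ) - (π '' (S : Set (Fin (m + 1) → ℝ))).ncard) / ((m + 1) * μ)
      ≤ Helper5.SV.largest (S : Set (Fin (m + 1) → ℝ))
        / Helper5.SV.smallest (S : Set (Fin (m + 1) → ℝ)) := by
  classical
  set D : ℝ := Helper5.SV.largest (S : Set (Fin (m + 1) → ℝ))
        / Helper5.SV.smallest (S : Set (Fin (m + 1) → ℝ)) with hDdef
  set T : Finset (Fin m → ℝ) := S.image π with hT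
  have hTc : (T : Set (Fin m → ℝ)) = π '' (S : Set (Fin (m + 1) → ℝ)) := by
    rw [hT, Finset.coe_image]
  rw [← hTc] at hint hμ ⊢
  rw [Set.ncard_coe_finset]
  have hTspan : affineSpan ℝ (T : Set (Fin m → ℝ)) = ⊤ := by
    have h1 := AffineSubspace.map_span (k := ℝ) (f := π.toAffineMap) (S : Set (Fin (m + 1) → ℝ))
    rw [hS] at h1
    rw [hTc]
    have h2 : (⇑π.toAffineMap '' (S : Set (Fin (m + 1) → ℝ))) = π '' (S : Set (Fin (m + 1) → ℝ)) :=
      rfl
    rw [h2] at h1
    rw [← h1, AffineMap.map_top_of_surjective]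
    exact hπ
  obtain ⟨Φ, X, R, hX, hXi, _, hone, _, _⟩ := normal_form T hTspan hint
  obtain ⟨φ, hφ⟩ := exists_height π hπ
  obtain ⟨lam, hlam0, hlam⟩ := affine_scale Φ
  obtain ⟨c, hc, hscale⟩ := exists_scale' π Φ φ hφ
  have hratioS : Ratio (lift S) D := ratio_lift S hS
  have hmemT : ∀ x : {x // x ∈ S}, π x ∈ T := fun x => Finset.mem_image_of_mem _ x.2
  -- base determinants
  have hbaseR : ∀ y : Fin (m + 1) → {b // b ∈ T},
      (((Matrix.of fun i => (Fin.cons 1 (X (y i)) : Fin (m + 1) → ℤ)).det : ℤ) : ℝ)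
      = Helper5.SV.G (fun i => (y i : Fin m → ℝ)) * lam := by
    intro y
    unfold Helper5.SV.G
    rw [← hlam, Int.cast_det]
    congr 1
    ext i j
    refine Fin.cases ?_ (fun j => ?_) j
    · simp
    · simp [hX]
  have hV : 0 < Helper5.SV.V m := Helper5.SV.V_pos m
  have hsm : Helper5.SV.smallest (T : Set (Fin m → ℝ)) * |lam| ≤ Helper5.SV.V m := by
    obtain ⟨f, hf⟩ := hone
    have h1 := hbaseR f
    have h2 : |Helper5.SV.G (fun i => (f i : Fin m → ℝ))| * |lam| = 1 := by
      rw [← abs_mul, ← h1, ← Int.cast_abs, hf]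
      simp
    have hG : Helper5.SV.G (fun i => (f i : Fin m → ℝ)) ≠ 0 := by
      intro h
      rw [h, abs_zero, zero_mul] at h2
      exact zero_ne_one h2
    have h3 : Helper5.SV.smallest (T : Set (Fin m → ℝ))
        ≤ |Helper5.SV.G (fun i => (f i : Fin m → ℝ))| * Helper5.SV.V m := by
      apply csInf_le ⟨0, fun v hv => hv.2.le⟩
      refine ⟨⟨fun i => (f i : Fin m → ℝ), ?_, fun i => (f i).2,
        (Helper5.SV.simplexVolume_eq _).symm⟩, mul_pos (abs_pos.2 hG) hV⟩
      intro a b hab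
      by_contra hne
      apply hG
      unfold Helper5.SV.G
      apply Matrix.det_zero_of_row_eq hne
      have hab' : (f a : Fin m → ℝ) = f b := hab
      funext l
      simp [Matrix.of_apply, hab']
    calc Helper5.SV.smallest (T : Set (Fin m → ℝ)) * |lam|
        ≤ (|Helper5.SV.G (fun i => (f i : Fin m → ℝ))| * Helper5.SV.V m) * |lam| :=
          mul_le_mul_of_nonneg_right h3 (abs_nonneg _)
      _ = (|Helper5.SV.G (fun i => (f i : Fin m → ℝ))| * |lam|) * Helper5.SV.V m := by ring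
      _ = Helper5.SV.V m := by rw [h2, one_mul]
  -- nondegenerate base simplices at all points
  have hvert : ∀ b : {b // b ∈ T}, ∃ y : Fin (m + 1) → {b // b ∈ T}, y 0 = b ∧
      1 ≤ |(Matrix.of fun i => (Fin.cons 1 (X (y i)) : Fin (m + 1) → ℤ)).det| ∧
      ((|(Matrix.of fun i => (Fin.cons 1 (X (y i)) : Fin (m + 1) → ℤ)).det| : ℤ) : ℝ) ≤ μ := by
    intro b
    obtain ⟨y, hyT, hy0, hypos, hyle⟩ := hμ b b.2
    rw [Helper5.SV.simplexVolume_eq] at hypos hyle
    have hGy : 0 < |Helper5.SV.G y| := pos_of_mul_pos_left hypos hV.le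
    refine ⟨fun i => ⟨y i, hyT i⟩, Subtype.ext hy0, ?_, ?_⟩
    · apply Int.one_le_abs
      intro h
      have h1 := hbaseR (fun i => ⟨y i, hyT i⟩)
      rw [h] at h1
      have h2 : Helper5.SV.G y * lam ≠ 0 := mul_ne_zero (abs_pos.1 hGy) hlam0
      exact h2 (by simpa using h1.symm)
    · have h1 := hbaseR (fun i => ⟨y i, hyT i⟩)
      rw [Int.cast_abs, h1, abs_mul]
      have h2 : (|Helper5.SV.G y| * |lam|) * Helper5.SV.V m ≤ μ * Helper5.SV.V m := by
        have hμ0 : 0 ≤ μ := by
          by_contra hneg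
          push Not at hneg
          have hs0 : 0 ≤ Helper5.SV.smallest (T : Set (Fin m → ℝ)) :=
            Real.sInf_nonneg fun v hv => hv.2.le
          have : μ * Helper5.SV.smallest (T : Set (Fin m → ℝ)) ≤ 0 :=
            mul_nonpos_of_nonpos_of_nonneg hneg.le hs0
          linarith
        calc (|Helper5.SV.G y| * |lam|) * Helper5.SV.V m
            = (|Helper5.SV.G y| * Helper5.SV.V m) * |lam| := by ring
          _ ≤ (μ * Helper5.SV.smallest (T : Set (Fin m → ℝ))) * |lam| :=
              mul_le_mul_of_nonneg_right hyle (abs_nonneg _)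
          _ = μ * (Helper5.SV.smallest (T : Set (Fin m → ℝ)) * |lam|) := by ring
          _ ≤ μ * Helper5.SV.V m := mul_le_mul_of_nonneg_left hsm hμ0
      exact le_of_mul_le_mul_right h2 hV
  -- full determinants
  set bX : {x // x ∈ S} → Fin (m + 1) → ℝ := fun x =>
    Fin.cons 1 (fun p => (X ⟨π x, hmemT x⟩ p : ℝ)) with hbX
  have hF : ∀ f : Fin (m + 2) → {x // x ∈ S}, Fd bX (fun x => φ x) f = G (lift S) f * c := by
    intro f
    have h1 := hscale (fun k => (f k : Fin (m + 1) → ℝ))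
    have h2 : G (lift S) f
        = (Matrix.of fun k => (Fin.cons 1 (f k : Fin (m + 1) → ℝ) : Fin (m + 2) → ℝ)).det := rfl
    rw [h2, ← h1]
    unfold Fd
    congr 2
    funext k
    rw [hbX]
    simp only
    congr 2
    exact (hX ⟨π (f k), hmemT (f k)⟩).symm
  have hc0 : 0 < |c| := abs_pos.2 hc
  -- the smallest nonzero full determinant
  obtain ⟨f0, hf0⟩ := exists_G_ne (lift S) (span_lift S hS)
  obtain ⟨f1, hf1, hmin⟩ := Finset.exists_min_image
    ((Finset.univ : Finset (Fin (m + 2) → {x // x ∈ S})).filter fun f => G (lift S) f ≠ 0)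
    (fun f => |G (lift S) f|) ⟨f0, by rw [Finset.mem_filter]; exact ⟨Finset.mem_univ _, hf0⟩⟩
  rw [Finset.mem_filter] at hf1
  set τ : ℝ := |G (lift S) f1| with hτ
  have hτ0 : 0 < τ := abs_pos.2 hf1.2
  have hτmin : ∀ f, G (lift S) f ≠ 0 → τ ≤ |G (lift S) f| := fun f hf =>
    hmin f (by rw [Finset.mem_filter]; exact ⟨Finset.mem_univ _, hf⟩)
  have hmax : ∀ f, |G (lift S) f| ≤ D * τ := fun f => hratioS f f1 hf1.2
  -- `μ` is at least one
  have hμ1 : 1 ≤ μ := by
    obtain ⟨y, _, hy1, hy2⟩ := hvert ⟨π (f0 0), hmemT (f0 0)⟩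
    have : (1 : ℝ) ≤ ((|(Matrix.of fun i => (Fin.cons 1 (X (y i)) :
        Fin (m + 1) → ℤ)).det| : ℤ) : ℝ) := by exact_mod_cast hy1
    linarith
  -- the gaps
  set δ : ℝ := |c| * τ / μ with hδ
  have hδ0 : 0 < δ := by positivity
  have hgap : ∀ x y : {x // x ∈ S}, π x = π y → x ≠ y → δ ≤ |φ x - φ y| := by
    intro x y hxy hne
    obtain ⟨z, hz0, hz1, hz2⟩ := hvert ⟨π y, hmemT y⟩
    have hlift : ∀ i : Fin m, ∃ w : {x // x ∈ S}, π w = z i.succ := by
      intro i
      obtain ⟨w, hw, hwz⟩ := Finset.mem_image.1 (z i.succ).2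
      exact ⟨⟨w, hw⟩, hwz⟩
    choose g hg using hlift
    have hbxy : bX x = bX y := by
      rw [hbX]
      simp only [hxy]
    have h1 := gapF bX (fun x => φ (x : Fin (m + 1) → ℝ)) x y hbxy g
    have hGz : G bX (Fin.cons y g)
        = (((Matrix.of fun i => (Fin.cons 1 (X (z i)) : Fin (m + 1) → ℤ)).det : ℤ) : ℝ) := by
      unfold G
      rw [Int.cast_det]
      congr 1
      ext i j
      have hzi : (⟨π ((Fin.cons y g : Fin (m + 1) → {x // x ∈ S}) i),
          hmemT ((Fin.cons y g : Fin (m + 1) → {x // x ∈ S}) i)⟩ : {b // b ∈ T}) = z i := by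
        refine Fin.cases ?_ (fun i => ?_) i
        · exact hz0.symm
        · exact Subtype.ext (hg i)
      rw [Matrix.of_apply, hbX]
      simp only [hzi]
      refine Fin.cases ?_ (fun j => ?_) j
      · simp
      · simp
    have hne' : φ x - φ y ≠ 0 := by
      intro h
      apply hne
      apply Subtype.ext
      have h2 := hφ ((x : Fin (m + 1) → ℝ) - y) (by rw [map_sub, hxy, sub_self])
        (by rw [map_sub]; exact h)
      exact sub_eq_zero.1 h2
    rw [hF, hGz] at h1
    have h2 : |G (lift S) (Fin.cons x (Fin.cons y g))| * |c| = |φ x - φ y|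
        * ((|(Matrix.of fun i => (Fin.cons 1 (X (z i)) : Fin (m + 1) → ℤ)).det| : ℤ) : ℝ) := by
      rw [← abs_mul, h1, abs_mul, Int.cast_abs]
    have hz1' : (1 : ℝ) ≤ ((|(Matrix.of fun i => (Fin.cons 1 (X (z i)) :
        Fin (m + 1) → ℤ)).det| : ℤ) : ℝ) := by exact_mod_cast hz1
    have h3 : G (lift S) (Fin.cons x (Fin.cons y g)) ≠ 0 := by
      intro h
      rw [h, abs_zero, zero_mul] at h2
      have : 0 < |φ x - φ y| * ((|(Matrix.of fun i => (Fin.cons 1 (X (z i)) :
        Fin (m + 1) → ℤ)).det| : ℤ) : ℝ) := mul_pos (abs_pos.2 hne') (by linarith)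
      linarith
    have h4 := hτmin _ h3
    rw [hδ, div_le_iff₀ (by linarith)]
    calc |c| * τ ≤ |c| * |G (lift S) (Fin.cons x (Fin.cons y g))| :=
          mul_le_mul_of_nonneg_left h4 hc0.le
      _ = |φ x - φ y| * ((|(Matrix.of fun i => (Fin.cons 1 (X (z i)) :
        Fin (m + 1) → ℤ)).det| : ℤ) : ℝ) := by rw [mul_comm, h2]
      _ ≤ |φ x - φ y| * μ := mul_le_mul_of_nonneg_left hz2 (abs_nonneg _)
  -- lowest and highest points of the fibres
  have hfib : ∀ t : {t // t ∈ T}, ∃ lo hi : {x // x ∈ S}, π lo = t ∧ π hi = t ∧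
      φ lo ≤ φ hi ∧ ((#(S.filter fun x => π x = t) : ℝ) - 1) * δ ≤ φ hi - φ lo := by
    intro t
    have hne : (S.attach.filter fun x : {x // x ∈ S} => π (x : Fin (m + 1) → ℝ) = t).Nonempty := by
      obtain ⟨x, hx, hxt⟩ := Finset.mem_image.1 t.2
      exact ⟨⟨x, hx⟩, by rw [Finset.mem_filter]; exact ⟨Finset.mem_attach _ _, hxt⟩⟩
    obtain ⟨lo, hlo, hlo2⟩ := Finset.exists_min_image _ (fun x : {x // x ∈ S} => φ x) hne
    obtain ⟨hi, hhi, hhi2⟩ := Finset.exists_max_image _ (fun x : {x // x ∈ S} => φ x) hne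
    refine ⟨lo, hi, (Finset.mem_filter.1 hlo).2, (Finset.mem_filter.1 hhi).2, hhi2 lo hlo, ?_⟩
    have h1 := gaps (S.attach.filter fun x : {x // x ∈ S} => π (x : Fin (m + 1) → ℝ) = t)
      (fun x : {x // x ∈ S} => φ x) δ hδ0
      (fun x hx y hy hxy => hgap x y (((Finset.mem_filter.1 hx).2).trans
        ((Finset.mem_filter.1 hy).2).symm) hxy) lo hi hlo2 hhi2 (hhi2 lo hlo)
    have h2 : #(S.attach.filter fun x : {x // x ∈ S} => π (x : Fin (m + 1) → ℝ) = t)
        = #(S.filter fun x => π x = t) := by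
      have h3 : (S.attach.filter fun x : {x // x ∈ S} => π (x : Fin (m + 1) → ℝ) = t).map
          ⟨Subtype.val, Subtype.val_injective⟩ = S.filter fun x => π x = t := by
        ext x
        simp only [Finset.mem_map, Finset.mem_filter, Finset.mem_attach, true_and,
          Function.Embedding.coeFn_mk, Subtype.exists, exists_and_left, exists_prop,
          exists_eq_right_right]
        tauto
      rw [← h3, Finset.card_map]
    rw [h2] at h1
    exact h1
  choose lo hi hlo1 hhi1 hle hlen using hfib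
  have hres := conf_all (ι := {t // t ∈ T}) X hXi (fun t => φ (lo t)) (fun t => φ (hi t)) hle
    (|c| * (D * τ))
    (by
      intro ρ h hh
      have hidx : ∀ i, ∃ x : {x // x ∈ S}, h i = φ x ∧ π x = ρ i := by
        intro i
        rcases hh i with h2 | h2
        · exact ⟨lo (ρ i), h2, hlo1 _⟩
        · exact ⟨hi (ρ i), h2, hhi1 _⟩
      choose f hf1 hf2 using hidx
      have h3 : (MM h (fun i => (Fin.cons 1 (fun p => (X (ρ i) p : ℝ)) :
          Fin (m + 1) → ℝ))).det = Fd bX (fun x => φ x) f := by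
        unfold MM Fd
        congr 2
        funext i
        rw [hf1, hbX]
        simp only
        have h4 : (⟨π (f i), hmemT (f i)⟩ : {b // b ∈ T}) = ρ i := Subtype.ext (hf2 i)
        rw [h4]
      rw [h3, hF, abs_mul, mul_comm]
      exact mul_le_mul_of_nonneg_left (hmax _) hc0.le)
    (by
      obtain ⟨f, hf⟩ := hone
      refine ⟨f, fun h => ?_⟩
      rw [h, abs_zero] at hf
      exact zero_ne_one hf)
  have h1 : ∑ t : {t // t ∈ T}, (((#(S.filter fun x => π x = t) : ℝ) - 1) * δ)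
      ≤ ((m : ℝ) + 1) * (|c| * (D * τ)) :=
    (Finset.sum_le_sum fun t _ => hlen t).trans hres
  have h2 : ∑ t : {t // t ∈ T}, (((#(S.filter fun x => π x = t) : ℝ) - 1) * δ)
      = ((#S : ℝ) - #T) * δ := by
    rw [← Finset.sum_mul, Finset.sum_sub_distrib]
    congr 2
    · rw [Finset.sum_coe_sort T fun t => (#(S.filter fun x => π x = t) : ℝ)]
      rw [Finset.card_eq_sum_card_image π S]
      push_cast
      rfl
    · simp
  rw [h2] at h1
  have h3 : ((m : ℝ) + 1) * (|c| * (D * τ)) = (((m : ℝ) + 1) * μ * D) * δ := by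
    rw [hδ]
    field_simp
  rw [h3] at h1
  have h4 : (#S : ℝ) - #T ≤ ((m : ℝ) + 1) * μ * D := le_of_mul_le_mul_right h1 hδ0
  rw [div_le_iff₀ (by positivity)]
  linarith

end Pool.Agent.Helper16.LS
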