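import Pool.Agent.Helper16.LS.Model

/-!
# LS (helper16): assembly of the theorem on sets with integral volumes
-/

namespace Pool.Agent.Helper16.LS

open Finset Pool.Agent.Helper62.LS Pool.Agent.Helper5.SV

/-- block (C): base of dimension `m` with at least `m + 2` points -/
def KeyC (m : ℕ) : Prop := ∀ (B : Finset (Fin m → ℤ)) (lo up : (Fin m → ℤ) → ℤ) (R : ℕ),
  (∀ b ∈ B, lo b ≤ up b) →
  (∀ (f : Fin (m + 2) → (Fin m → ℤ)) (t : Fin (m + 2) → ℤ), (∀ i, f i ∈ B) →
    (∀ i, t i = lo (f i) ∨ t i = up (f i)) →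
    |(MM t (fun i => (Fin.cons 1 (f i) : Fin (m + 1) → ℤ))).det| ≤ R) →
  (∃ f : Fin (m + 1) → (Fin m → ℤ), (∀ i, f i ∈ B) ∧
    (Matrix.of fun i => (Fin.cons 1 (f i) : Fin (m + 1) → ℤ)).det ≠ 0) →
  m + 2 ≤ B.card →
  36 * ((m : ℤ) + 1) * ∑ b ∈ B, (up b - lo b) ≤ (36 * ((m : ℤ) + 1) ^ 2 - 1) * (R : ℤ)

theorem many_lines {m : ℕ} (hkey : KeyC m) {ι : Type} [Fintype ι] [DecidableEq ι]
    (s : ι → ℤ) (x : ι → Fin m → ℤ) (R : ℕ)
    (hinj : ∀ i j, s i = s j → x i = x j → i = j)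
    (hR : ∀ f : Fin (m + 2) → ι,
      |(MM (fun i => s (f i)) (fun i => (Fin.cons 1 (x (f i)) : Fin (m + 1) → ℤ))).det| ≤ R)
    (hspan : ∃ f : Fin (m + 2) → ι,
      (MM (fun i => s (f i)) (fun i => (Fin.cons 1 (x (f i)) : Fin (m + 1) → ℤ))).det ≠ 0)
    (hB : m + 2 ≤ (Finset.univ.image x).card) :
    36 * ((m : ℤ) + 1) * (Fintype.card ι : ℤ)
      ≤ (36 * ((m : ℤ) + 1) ^ 2 - 1) * (R : ℤ)
        + 36 * ((m : ℤ) + 1) * ((Finset.univ.image x).card : ℤ) := by
  classical
  set B := Finset.univ.image x with hBdef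
  have hex : ∀ b : Fin m → ℤ, ∃ l u : ℤ, b ∈ B → (∃ i, x i = b ∧ s i = l) ∧
      (∃ i, x i = b ∧ s i = u) ∧ ∀ i, x i = b → l ≤ s i ∧ s i ≤ u := by
    intro b
    by_cases hb : b ∈ B
    · have hne : (Finset.univ.filter fun i => x i = b).Nonempty := by
        rw [hBdef, Finset.mem_image] at hb
        obtain ⟨i, _, hi⟩ := hb
        exact ⟨i, by simp [hi]⟩
      obtain ⟨i, hi, hmin⟩ := Finset.exists_min_image _ s hne
      obtain ⟨j, hj, hmax⟩ := Finset.exists_max_image _ s hne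
      rw [Finset.mem_filter] at hi hj
      refine ⟨s i, s j, fun _ => ⟨⟨i, hi.2, rfl⟩, ⟨j, hj.2, rfl⟩, fun k hk => ⟨?_, ?_⟩⟩⟩
      · exact hmin k (by simp [hk])
      · exact hmax k (by simp [hk])
    · exact ⟨0, 0, fun h => absurd h hb⟩
  choose lo up hlu using hex
  have h1 := hkey B lo up R
    (by
      intro b hb
      obtain ⟨⟨i, hi, hs⟩, _, h3⟩ := hlu b hb
      have := h3 i hi
      linarith [this.1, this.2])
    (by
      intro f t hf ht
      have hidx : ∀ i, ∃ k, x k = f i ∧ s k = t i := by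
        intro i
        obtain ⟨h4, h5, _⟩ := hlu (f i) (hf i)
        rcases ht i with h6 | h6
        · obtain ⟨k, hk1, hk2⟩ := h4
          exact ⟨k, hk1, by rw [hk2, h6]⟩
        · obtain ⟨k, hk1, hk2⟩ := h5
          exact ⟨k, hk1, by rw [hk2, h6]⟩
      choose k hk1 hk2 using hidx
      have h7 := hR k
      simp only [hk1, hk2] at h7
      exact h7)
    (by
      obtain ⟨g, hg⟩ := exists_base s x hspan
      refine ⟨fun i => x (g i), fun i => ?_, hg⟩
      exact Finset.mem_image_of_mem _ (Finset.mem_univ _))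
    hB
  have hcard : (Fintype.card ι : ℤ) ≤ ∑ b ∈ B, (up b - lo b) + (B.card : ℤ) := by
    have h2 : (Fintype.card ι : ℤ) = ∑ b ∈ B, ((Finset.univ.filter fun i => x i = b).card : ℤ) := by
      rw [← Finset.card_univ, Finset.card_eq_sum_card_image x Finset.univ]
      push_cast
      rfl
    have h3 : ∑ b ∈ B, (up b - lo b) + (B.card : ℤ) = ∑ b ∈ B, (up b - lo b + 1) := by
      rw [Finset.sum_add_distrib]
      simp
    rw [h2, h3]
    apply Finset.sum_le_sum
    intro b hb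
    obtain ⟨⟨i, hi, hs⟩, _, h4⟩ := hlu b hb
    have h5 : (Finset.univ.filter fun i => x i = b).card ≤ (Finset.Icc (lo b) (up b)).card := by
      apply Finset.card_le_card_of_injOn s
      · intro k hk
        have hk' : x k = b := by simpa using hk
        have := h4 k hk'
        simp [this.1, this.2]
      · intro k hk k' hk' hkk
        have h6 : x k = b := by simpa using hk
        have h7 : x k' = b := by simpa using hk'
        exact hinj k k' hkk (by rw [h6, h7])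
    rw [Int.card_Icc] at h5
    have h8 := h4 i hi
    have h9 : ((up b + 1 - lo b).toNat : ℤ) = up b - lo b + 1 := by
      rw [Int.toNat_of_nonneg (by linarith [h8.1, h8.2])]
      ring
    calc ((Finset.univ.filter fun i => x i = b).card : ℤ) ≤ ((up b + 1 - lo b).toNat : ℤ) := by
          exact_mod_cast h5
      _ = _ := h9
  have hpos : (0 : ℤ) ≤ 36 * ((m : ℤ) + 1) := by positivity
  have h10 := mul_le_mul_of_nonneg_left hcard hpos
  linarith

theorem main_aux {m : ℕ} (hm : 1 ≤ m) (hkey : KeyC m) (S : Finset (Fin (m + 1) → ℝ))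
    (hS : affineSpan ℝ (S : Set (Fin (m + 1) → ℝ)) = ⊤)
    (hint : ∀ v ∈ simplexVolumes (S : Set (Fin (m + 1) → ℝ)), ∃ k : ℕ,
      v = k * smallest (S : Set (Fin (m + 1) → ℝ)))
    (hn : (72 * (m + 1) ^ 4) ^ (m + 1) < S.card) :
    ∃ R : ℕ, largest (S : Set (Fin (m + 1) → ℝ)) / smallest (S : Set (Fin (m + 1) → ℝ)) = R ∧
      S.card ≤ (m + 1) * (R + 1) ∧ (S.card = (m + 1) * (R + 1) →
        ∃ Θ : (Fin (m + 1) → ℝ) ≃ᵃ[ℝ] (Fin (m + 1) → ℝ),
          Θ '' (S : Set (Fin (m + 1) → ℝ)) = modelSet (m + 1) S.card) := by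
  classical
  obtain ⟨Φ, X, R, hX, hXi, hdet, hone, _, hratio⟩ := normal_form S hS hint
  refine ⟨R, hratio, ?_⟩
  have hspan : ∃ f : Fin (m + 2) → {x // x ∈ S},
      (Matrix.of fun i => (Fin.cons 1 (X (f i)) : Fin (m + 2) → ℤ)).det ≠ 0 := by
    obtain ⟨f, hf⟩ := hone
    refine ⟨f, fun h => ?_⟩
    rw [h, abs_zero] at hf
    exact zero_ne_one hf
  obtain ⟨Ψ, i, j, hij, hq⟩ := direction X hXi (72 * (m + 1) ^ 4) (by positivity)
    (by rw [Fintype.card_coe]; exact hn)
  set s : {x // x ∈ S} → ℤ := fun i => Ψ (X i) 0 with hs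
  set x : {x // x ∈ S} → Fin m → ℤ := fun i => fun p : Fin m => Ψ (X i) p.succ with hx
  by_cases hB : (Finset.univ.image x).card ≤ m + 1
  · exact few_lines S R Φ X hX hXi hdet hspan Ψ hB
  · have hcons : ∀ i, (Fin.cons (s i) (x i) : Fin (m + 1) → ℤ) = Ψ (X i) := by
      intro i
      funext p
      refine Fin.cases ?_ (fun p => ?_) p
      · rfl
      · rfl
    have habs : ∀ f : Fin (m + 2) → {x // x ∈ S},
        |(MM (fun i => s (f i)) (fun i => (Fin.cons 1 (x (f i)) : Fin (m + 1) → ℤ))).det|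
        = |(Matrix.of fun i => (Fin.cons 1 (X (f i)) : Fin (m + 2) → ℤ)).det| := by
      intro f
      rw [← det_swap (fun i => s (f i)) (fun i => x (f i)),
        ← det_unimodular Ψ (fun i => X (f i))]
      simp only [hcons]
    have hinj : ∀ i j, s i = s j → x i = x j → i = j := by
      intro i j h1 h2
      apply hXi
      apply Ψ.injective
      rw [← hcons, ← hcons, h1, h2]
    have hR' : ∀ f : Fin (m + 2) → {x // x ∈ S},
        |(MM (fun i => s (f i)) (fun i => (Fin.cons 1 (x (f i)) : Fin (m + 1) → ℤ))).det| ≤ R := by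
      intro f
      rw [habs]
      exact hdet f
    have hspan' : ∃ f : Fin (m + 2) → {x // x ∈ S},
        (MM (fun i => s (f i)) (fun i => (Fin.cons 1 (x (f i)) : Fin (m + 1) → ℤ))).det ≠ 0 := by
      obtain ⟨f, hf⟩ := hspan
      refine ⟨f, ?_⟩
      rw [← abs_ne_zero, habs, abs_ne_zero]
      exact hf
    have h1 := many_lines hkey s x R hinj hR' hspan' (by omega)
    have h2 := card_base hm s x R hR' hspan' (72 * (m + 1) ^ 4) (by positivity) i j (funext hij)
      hq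
    rw [Fintype.card_coe] at h1
    set b := (Finset.univ.image x).card with hb
    have h3 : 36 * ((m : ℤ) + 1) * (b : ℤ) ≤ R := by
      have h4 : (72 * ((m : ℤ) + 1) ^ 4) * (b : ℤ) ≤ 2 * m * ((m : ℤ) + 1) ^ 2 * R := by
        exact_mod_cast h2
      have hp : (0 : ℤ) < 2 * ((m : ℤ) + 1) ^ 2 := by positivity
      have h5 : 36 * ((m : ℤ) + 1) ^ 2 * (b : ℤ) ≤ m * R := by
        have : (2 * ((m : ℤ) + 1) ^ 2) * (36 * ((m : ℤ) + 1) ^ 2 * (b : ℤ))
            ≤ (2 * ((m : ℤ) + 1) ^ 2) * (m * R) := by linarith [h4]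
        exact le_of_mul_le_mul_left this hp
      have h6 : ((m : ℤ) + 1) * (36 * ((m : ℤ) + 1) * (b : ℤ)) ≤ ((m : ℤ) + 1) * R := by
        have h7 : (0 : ℤ) ≤ R := by positivity
        nlinarith
      exact le_of_mul_le_mul_left h6 (by positivity)
    have h8 : 36 * ((m : ℤ) + 1) * (S.card : ℤ) ≤ 36 * ((m : ℤ) + 1) * (((m : ℤ) + 1) * R) := by
      nlinarith
    have h9 : (S.card : ℤ) ≤ ((m : ℤ) + 1) * R := le_of_mul_le_mul_left h8 (by positivity)
    have h10 : S.card ≤ (m + 1) * R := by exact_mod_cast h9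
    have h11 : (m + 1) * (R + 1) = (m + 1) * R + (m + 1) := by ring
    refine ⟨by omega, fun h => ?_⟩
    omega

/-- **Erdős–Purdy–Straus conjecture for sets with integral volumes**, from the block (C). -/
theorem main (hkey : ∀ m, 1 ≤ m → KeyC m) (m n : ℕ) (hm : 2 ≤ m) (hn : (72 * m ^ 4) ^ m < n)
    (S : Finset (Fin m → ℝ)) (hcard : S.card = n)
    (hS : affineSpan ℝ (S : Set (Fin m → ℝ)) = ⊤)
    (hint : ∀ v ∈ simplexVolumes (S : Set (Fin m → ℝ)), ∃ k : ℕ,
      v = k * smallest (S : Set (Fin m → ℝ))) :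
    (((n - 1) / m : ℕ) : ℝ)
        ≤ largest (S : Set (Fin m → ℝ)) / smallest (S : Set (Fin m → ℝ)) ∧
      (m ∣ n → largest (S : Set (Fin m → ℝ)) / smallest (S : Set (Fin m → ℝ))
          = (((n - 1) / m : ℕ) : ℝ) →
        ∃ Θ : (Fin m → ℝ) ≃ᵃ[ℝ] (Fin m → ℝ), Θ '' (S : Set (Fin m → ℝ)) = modelSet m n) := by
  obtain ⟨m, rfl⟩ : ∃ m', m = m' + 1 := ⟨m - 1, by omega⟩
  subst hcard
  obtain ⟨R, hratio, hle, heq⟩ := main_aux (by omega) (hkey m (by omega)) S hS hint hn
  have hnpos : 0 < S.card := by omega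
  rw [hratio]
  constructor
  · have h1 : (S.card - 1) / (m + 1) ≤ R := by
      rw [← Nat.lt_succ_iff, Nat.div_lt_iff_lt_mul (show 0 < m + 1 by omega)]
      have h2 : (R + 1) * (m + 1) = (m + 1) * (R + 1) := by ring
      rw [Nat.succ_eq_add_one, h2]
      omega
    exact_mod_cast h1
  · rintro ⟨c, hc⟩ hR
    have hR' : R = (S.card - 1) / (m + 1) := by exact_mod_cast hR
    apply heq
    have hcpos : 0 < c := by
      rcases Nat.eq_zero_or_pos c with h | h
      · rw [h, mul_zero] at hc; omega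
      · exact h
    obtain ⟨c, rfl⟩ : ∃ c', c = c' + 1 := ⟨c - 1, by omega⟩
    have h3 : (S.card - 1) / (m + 1) = c := by
      have h4 : S.card - 1 = m + (m + 1) * c := by
        rw [hc, mul_add, mul_one]
        omega
      rw [h4, Nat.add_mul_div_left _ _ (show 0 < m + 1 by omega), Nat.div_eq_of_lt (by omega),
        zero_add]
    rw [hR', h3]
    exact hc

end Pool.Agent.Helper16.LS
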