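import Pool.Agent.Helper62.LS.Base
import Pool.Agent.Helper62.LS.Dir
import Pool.Agent.Helper62.LS.NF

/-!
# LS (helper16): sets on few parallel lines, and the equality case
-/

namespace Pool.Agent.Helper16.LS

open Finset Pool.Agent.Helper62.LS

/-- The set `S_{m,n}`: the points `b_k + j e_m` with `1 ≤ k ≤ m` and `0 ≤ j ≤ [(n-k)/m]`, where
`b_1 = 0` and `b_k = e_{k-1}` for `2 ≤ k ≤ m` (the coordinate with index `p : Fin m` is the
coordinate number `p + 1`). -/
def modelSet (m n : ℕ) : Set (Fin m → ℝ) :=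
  {y | ∃ k j : ℕ, 1 ≤ k ∧ k ≤ m ∧ j ≤ (n - k) / m ∧
    y = fun p : Fin m => (if (p : ℕ) + 2 = k then (1 : ℝ) else 0)
      + (j : ℝ) * (if (p : ℕ) + 1 = m then (1 : ℝ) else 0)}

theorem abs_bdet_cons {m : ℕ} {ι : Type} (x : ι → Fin m → ℤ) (g : Fin (m + 1) → ι)
    (k : Fin (m + 1)) (i : ι) (hi : x i = x (g k)) :
    |bdet x (Fin.cons i (fun q => g (k.succAbove q)))| = |bdet x g| := by
  have h1 : (Matrix.of fun q => (Fin.cons 1 (x ((Fin.cons i (fun q => g (k.succAbove q)) :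
      Fin (m + 1) → ι) q)) : Fin (m + 1) → ℤ))
      = (Matrix.of fun q => (Fin.cons 1 (x (g q)) : Fin (m + 1) → ℤ)).submatrix
          k.cycleRange.symm (Equiv.refl _) := by
    ext q r
    refine Fin.cases ?_ (fun q => ?_) q
    · simp [hi]
    · simp
  unfold bdet
  rw [h1]
  exact Matrix.abs_det_submatrix_equiv_equiv _ _ _

theorem fibre_diff {m : ℕ} {ι : Type} (s : ι → ℤ) (x : ι → Fin m → ℤ) (R : ℕ)
    (hR : ∀ f : Fin (m + 2) → ι,
      |(MM (fun i => s (f i)) (fun i => (Fin.cons 1 (x (f i)) : Fin (m + 1) → ℤ))).det| ≤ R)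
    (g : Fin (m + 1) → ι) (k : Fin (m + 1)) (i j : ι) (hi : x i = x (g k))
    (hj : x j = x (g k)) : |s i - s j| * |bdet x g| ≤ R := by
  rw [← abs_bdet_cons x g k i hi, ← abs_mul,
    ← MM_pair s x i j (hi.trans hj.symm) (fun q => g (k.succAbove q))]
  exact hR _

theorem exists_base {m : ℕ} {ι : Type} (s : ι → ℤ) (x : ι → Fin m → ℤ)
    (hspan : ∃ f : Fin (m + 2) → ι,
      (MM (fun i => s (f i)) (fun i => (Fin.cons 1 (x (f i)) : Fin (m + 1) → ℤ))).det ≠ 0) :
    ∃ g : Fin (m + 1) → ι, bdet x g ≠ 0 := by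
  obtain ⟨f, hf⟩ := hspan
  by_contra hcon
  push Not at hcon
  apply hf
  rw [MM_expand]
  apply Finset.sum_eq_zero
  intro p _
  have := hcon (fun k => f (p.succAbove k))
  unfold bdet at this
  rw [this, mul_zero]

theorem bdet_injective {m : ℕ} {ι : Type} (x : ι → Fin m → ℤ) (g : Fin (m + 1) → ι)
    (hg : bdet x g ≠ 0) : Function.Injective fun k => x (g k) := by
  intro a b hab
  by_contra hne
  apply hg
  unfold bdet
  apply Matrix.det_zero_of_row_eq hne
  funext l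
  have : x (g a) = x (g b) := hab
  simp [Matrix.of_apply, this]

/-- a base with the least possible number of points: the number of points is at most
`(m+1)(R+1)`, and in the case of equality all fibres are full -/
theorem simple_structure {m : ℕ} {ι : Type} [Fintype ι] [DecidableEq ι]
    (s : ι → ℤ) (x : ι → Fin m → ℤ) (R : ℕ)
    (hinj : ∀ i j, s i = s j → x i = x j → i = j)
    (hR : ∀ f : Fin (m + 2) → ι,
      |(MM (fun i => s (f i)) (fun i => (Fin.cons 1 (x (f i)) : Fin (m + 1) → ℤ))).det| ≤ R)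
    (hspan : ∃ f : Fin (m + 2) → ι,
      (MM (fun i => s (f i)) (fun i => (Fin.cons 1 (x (f i)) : Fin (m + 1) → ℤ))).det ≠ 0)
    (hB : (Finset.univ.image x).card ≤ m + 1) :
    Fintype.card ι ≤ (m + 1) * (R + 1) ∧ ∃ a : Fin (m + 1) → ι, bdet x a ≠ 0 ∧
      (∀ i, ∃ k, ∃ j : ℕ, j ≤ R ∧ x i = x (a k) ∧ s i = s (a k) + j) ∧
      (Fintype.card ι = (m + 1) * (R + 1) → ∀ k, ∀ j : ℕ, j ≤ R →
        ∃ i, x i = x (a k) ∧ s i = s (a k) + j) := by
  obtain ⟨g, hg⟩ := exists_base s x hspan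
  have hgi := bdet_injective x g hg
  have hg1 : 1 ≤ |bdet x g| := Int.one_le_abs hg
  -- the base is the simplex
  have himg : Finset.univ.image (fun k => x (g k)) = Finset.univ.image x := by
    apply Finset.eq_of_subset_of_card_le
    · intro b hb
      rw [Finset.mem_image] at hb ⊢
      obtain ⟨k, _, rfl⟩ := hb
      exact ⟨g k, Finset.mem_univ _, rfl⟩
    · rw [Finset.card_image_of_injective _ hgi, Finset.card_univ, Fintype.card_fin]
      exact hB
  have hκ : ∀ i, ∃ k, x i = x (g k) := by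
    intro i
    have h1 : x i ∈ Finset.univ.image (fun k => x (g k)) := by
      rw [himg]
      exact Finset.mem_image_of_mem _ (Finset.mem_univ i)
    rw [Finset.mem_image] at h1
    obtain ⟨k, _, hk⟩ := h1
    exact ⟨k, hk.symm⟩
  choose κ hκ using hκ
  -- lowest points
  have hlow : ∀ k, ∃ a : ι, x a = x (g k) ∧ ∀ i, x i = x (g k) → s a ≤ s i := by
    intro k
    obtain ⟨a, ha, hmin⟩ := Finset.exists_min_image
      (Finset.univ.filter fun i => x i = x (g k)) s ⟨g k, by simp⟩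
    rw [Finset.mem_filter] at ha
    exact ⟨a, ha.2, fun i hi => hmin i (by simp [hi])⟩
  choose a ha hmin using hlow
  have hbd : ∀ k i, x i = x (g k) → s i - s (a k) ≤ R := by
    intro k i hi
    have h1 := fibre_diff s x R hR g k i (a k) hi (ha k)
    have h2 : |s i - s (a k)| * 1 ≤ |s i - s (a k)| * |bdet x g| :=
      mul_le_mul_of_nonneg_left hg1 (abs_nonneg _)
    have h3 := le_abs_self (s i - s (a k))
    linarith
  let F : ι → Fin (m + 1) × Fin (R + 1) := fun i =>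
    (κ i, ⟨(s i - s (a (κ i))).toNat, by
      have h1 := hbd (κ i) i (hκ i)
      omega⟩)
  have hF : Function.Injective F := by
    intro i j hij
    have h1 : κ i = κ j := congrArg Prod.fst hij
    have h2 : (s i - s (a (κ i))).toNat = (s j - s (a (κ j))).toNat := by
      have := congrArg Prod.snd hij
      exact congrArg Fin.val this
    have h3 := hmin (κ i) i (hκ i)
    have h4 := hmin (κ j) j (hκ j)
    rw [h1] at h2 h3
    apply hinj
    · omega
    · rw [hκ i, h1, ← hκ j]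
  have hcard : Fintype.card (Fin (m + 1) × Fin (R + 1)) = (m + 1) * (R + 1) := by
    rw [Fintype.card_prod, Fintype.card_fin, Fintype.card_fin]
  have hbda : bdet x a ≠ 0 := by
    rw [bdet_congr x (g' := g) ha]
    exact hg
  refine ⟨by rw [← hcard]; exact Fintype.card_le_of_injective F hF, a, hbda, ?_, ?_⟩
  · intro i
    refine ⟨κ i, (s i - s (a (κ i))).toNat, ?_, ?_, ?_⟩
    · have := hbd (κ i) i (hκ i)
      omega
    · rw [ha, ← hκ]
    · have := hmin (κ i) i (hκ i)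
      omega
  · intro hc k j hj
    have hbij : Function.Bijective F :=
      (Fintype.bijective_iff_injective_and_card F).2 ⟨hF, by rw [hc, hcard]⟩
    obtain ⟨i, hi⟩ := hbij.2 (k, ⟨j, by omega⟩)
    have h1 : κ i = k := congrArg Prod.fst hi
    have h2 : (s i - s (a (κ i))).toNat = j := congrArg Fin.val (congrArg Prod.snd hi)
    refine ⟨i, ?_, ?_⟩
    · rw [ha, ← h1]; exact hκ i
    · have := hmin (κ i) i (hκ i)
      rw [h1] at h2 this
      omega

/-- the real linear automorphism of an integral one -/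
theorem realize {M : ℕ} (Ψ : (Fin M → ℤ) ≃ₗ[ℤ] (Fin M → ℤ)) :
    ∃ Ψ' : (Fin M → ℝ) ≃ₗ[ℝ] (Fin M → ℝ), ∀ z : Fin M → ℤ,
      Ψ' (fun p => (z p : ℝ)) = fun p => ((Ψ z p : ℤ) : ℝ) := by
  set A : Matrix (Fin M) (Fin M) ℤ := LinearMap.toMatrix' (Ψ : (Fin M → ℤ) →ₗ[ℤ] (Fin M → ℤ))
    with hA
  set B : Matrix (Fin M) (Fin M) ℤ :=
    LinearMap.toMatrix' (Ψ.symm : (Fin M → ℤ) →ₗ[ℤ] (Fin M → ℤ)) with hB
  have h1 : A * B = 1 := by
    rw [hA, hB, ← LinearMap.toMatrix'_comp, LinearEquiv.comp_coe, LinearEquiv.symm_trans_self]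
    exact LinearMap.toMatrix'_id
  have h2 : B * A = 1 := by
    rw [hA, hB, ← LinearMap.toMatrix'_comp, LinearEquiv.comp_coe, LinearEquiv.self_trans_symm]
    exact LinearMap.toMatrix'_id
  have h3 : (A.map (Int.castRingHom ℝ)) * (B.map (Int.castRingHom ℝ)) = 1 := by
    rw [← Matrix.map_mul, h1, Matrix.map_one _ (map_zero _) (map_one _)]
  have h4 : (B.map (Int.castRingHom ℝ)) * (A.map (Int.castRingHom ℝ)) = 1 := by
    rw [← Matrix.map_mul, h2, Matrix.map_one _ (map_zero _) (map_one _)]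
  refine ⟨Matrix.toLin'OfInv h4 h3, ?_⟩
  intro z
  funext p
  have h5 : Ψ z = A.mulVec z := by
    rw [hA, LinearMap.toMatrix'_mulVec]
    rfl
  rw [h5]
  simp [Matrix.mulVec, dotProduct]

/-- the affine bijection onto the lines over a simplex -/
theorem exists_affine {m : ℕ} (s : Fin (m + 1) → ℤ) (x : Fin (m + 1) → Fin m → ℤ)
    (hdet : (Matrix.of fun k => (Fin.cons 1 (x k) : Fin (m + 1) → ℤ)).det ≠ 0) :
    ∃ Θ : (Fin (m + 1) → ℝ) ≃ᵃ[ℝ] (Fin (m + 1) → ℝ), ∀ (k : Fin (m + 1)) (t : ℝ),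
      Θ (fun p => (if (p : ℕ) + 2 = (k : ℕ) + 1 then (1 : ℝ) else 0)
        + t * (if (p : ℕ) + 1 = m + 1 then (1 : ℝ) else 0))
      = Fin.cons ((s k : ℝ) + t) (fun p => (x k p : ℝ)) := by
  classical
  let P : Fin (m + 1) → (Fin (m + 1) → ℝ) := fun k => Fin.cons (s k : ℝ) (fun p => (x k p : ℝ))
  let L : (Fin (m + 1) → ℝ) →ₗ[ℝ] (Fin (m + 1) → ℝ) :=
    (∑ i : Fin m, (LinearMap.proj (i.castSucc)).smulRight (P i.succ - P 0))
      + (LinearMap.proj (Fin.last m)).smulRight (Pi.single 0 1)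
  have hL : ∀ y, L y = (∑ i : Fin m, y i.castSucc • (P i.succ - P 0))
      + y (Fin.last m) • (Pi.single 0 1 : Fin (m + 1) → ℝ) := by
    intro y
    simp [L, LinearMap.sum_apply]
  have hdetR : (Matrix.of fun i : Fin m => (fun q => (x i.succ q : ℝ) - (x 0 q : ℝ))).det ≠ 0 := by
    have h1 := Helper5.SV.G_eq_D (fun k => (fun q => (x k q : ℝ)))
    have h2 : Helper5.SV.G (fun k => (fun q => (x k q : ℝ)))
        = ((Matrix.of fun k => (Fin.cons 1 (x k) : Fin (m + 1) → ℤ)).det : ℝ) := by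
      unfold Helper5.SV.G
      rw [Int.cast_det]
      congr 1
      ext i j
      refine Fin.cases ?_ (fun j => ?_) j
      · simp
      · simp
    have h3 : Helper5.SV.D (fun k => (fun q => (x k q : ℝ)))
        = (Matrix.of fun i : Fin m => (fun q => (x i.succ q : ℝ) - (x 0 q : ℝ))).det := rfl
    rw [← h3, ← h1, h2]
    exact_mod_cast hdet
  have hinj : Function.Injective L := by
    rw [injective_iff_map_eq_zero]
    intro y hy
    rw [hL] at hy
    have h1 : (fun i : Fin m => y i.castSucc) = 0 := by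
      apply Matrix.eq_zero_of_vecMul_eq_zero hdetR
      funext q
      have h2 := congrFun hy q.succ
      simp only [Pi.add_apply, Finset.sum_apply, Pi.smul_apply, Pi.sub_apply, smul_eq_mul,
        Pi.zero_apply, Pi.single_eq_of_ne (Fin.succ_ne_zero q), mul_zero, add_zero, P,
        Fin.cons_succ] at h2
      simpa [Matrix.vecMul, dotProduct] using h2
    have h3 : y (Fin.last m) = 0 := by
      have h2 := congrFun hy 0
      have h4 : ∀ i : Fin m, y i.castSucc = 0 := fun i => congrFun h1 i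
      simpa [h4] using h2
    funext p
    refine Fin.lastCases ?_ (fun i => ?_) p
    · exact h3
    · exact congrFun h1 i
  let Le : (Fin (m + 1) → ℝ) ≃ₗ[ℝ] (Fin (m + 1) → ℝ) := LinearEquiv.ofInjectiveEndo L hinj
  let Θ : (Fin (m + 1) → ℝ) ≃ᵃ[ℝ] (Fin (m + 1) → ℝ) :=
    Le.toAffineEquiv.trans (AffineEquiv.vaddConst ℝ (P 0))
  have hΘ : ∀ y, Θ y = L y + P 0 := fun y => rfl
  refine ⟨Θ, ?_⟩
  intro k t
  rw [hΘ, hL]
  have hlast : (if ((Fin.last m : Fin (m + 1)) : ℕ) + 2 = (k : ℕ) + 1 then (1 : ℝ) else 0)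
      + t * (if ((Fin.last m : Fin (m + 1)) : ℕ) + 1 = m + 1 then (1 : ℝ) else 0) = t := by
    have h1 : ¬ ((Fin.last m : Fin (m + 1)) : ℕ) + 2 = (k : ℕ) + 1 := by
      have := k.isLt
      simp only [Fin.val_last]
      omega
    rw [if_neg h1]
    simp
  have hcs : ∀ i : Fin m, (if ((i.castSucc : Fin (m + 1)) : ℕ) + 2 = (k : ℕ) + 1
      then (1 : ℝ) else 0)
      + t * (if ((i.castSucc : Fin (m + 1)) : ℕ) + 1 = m + 1 then (1 : ℝ) else 0)
      = if i.succ = k then 1 else 0 := by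
    intro i
    have h1 : ¬ ((i.castSucc : Fin (m + 1)) : ℕ) + 1 = m + 1 := by
      have := i.isLt
      simp only [Fin.val_castSucc]
      omega
    rw [if_neg h1, mul_zero, add_zero]
    congr 1
    rw [eq_iff_iff, Fin.ext_iff]
    simp only [Fin.val_castSucc, Fin.val_succ]
    omega
  rw [hlast]
  simp only [hcs]
  have hsum : ∑ i : Fin m, (if i.succ = k then (1 : ℝ) else 0) • (P i.succ - P 0) = P k - P 0 := by
    refine Fin.cases ?_ (fun k => ?_) k
    · rw [sub_self]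
      apply Finset.sum_eq_zero
      intro i _
      rw [if_neg (Fin.succ_ne_zero i), zero_smul]
    · rw [Finset.sum_eq_single k]
      · simp
      · intro i _ hi
        rw [if_neg (fun h => hi (Fin.succ_injective _ h)), zero_smul]
      · simp
  rw [hsum]
  funext p
  refine Fin.cases ?_ (fun p => ?_) p
  · simp [P]
    ring
  · simp [P]

/-- the point number `j` on the line number `k + 1` -/
def modelPt (m : ℕ) (k : ℕ) (t : ℝ) : Fin m → ℝ :=
  fun p => (if (p : ℕ) + 2 = k + 1 then (1 : ℝ) else 0)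
    + t * (if (p : ℕ) + 1 = m then (1 : ℝ) else 0)

theorem modelSet_eq (m R : ℕ) :
    modelSet (m + 1) ((m + 1) * (R + 1))
      = {y | ∃ k : Fin (m + 1), ∃ j : ℕ, j ≤ R ∧ y = modelPt (m + 1) k j} := by
  have hdiv : ∀ k : ℕ, k < m + 1 → ((m + 1) * (R + 1) - (k + 1)) / (m + 1) = R := by
    intro k hk
    have h1 : (m + 1) * (R + 1) - (k + 1) = (m - k) + (m + 1) * R := by
      have h2 : (m + 1) * (R + 1) = (m + 1) * R + (m + 1) := by ring
      omega
    rw [h1, Nat.add_mul_div_left _ _ (Nat.succ_pos m), Nat.div_eq_of_lt (by omega), zero_add]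
  ext y
  constructor
  · rintro ⟨k, j, hk1, hkm, hj, rfl⟩
    obtain ⟨k, rfl⟩ : ∃ k', k = k' + 1 := ⟨k - 1, by omega⟩
    rw [hdiv k (by omega)] at hj
    exact ⟨⟨k, by omega⟩, j, hj, rfl⟩
  · rintro ⟨k, j, hj, rfl⟩
    refine ⟨(k : ℕ) + 1, j, by omega, by omega, ?_, rfl⟩
    rw [hdiv k k.isLt]
    exact hj

/-- **The equality case.** -/
theorem few_lines {m : ℕ} (S : Finset (Fin (m + 1) → ℝ)) (R : ℕ)
    (Φ : (Fin (m + 1) → ℝ) ≃ᵃ[ℝ] (Fin (m + 1) → ℝ)) (X : {x // x ∈ S} → Fin (m + 1) → ℤ)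
    (hX : ∀ x : {x // x ∈ S}, Φ (x : Fin (m + 1) → ℝ) = fun p => (X x p : ℝ))
    (hXi : Function.Injective X)
    (hdet : ∀ f : Fin (m + 2) → {x // x ∈ S},
      |(Matrix.of fun i => (Fin.cons 1 (X (f i)) : Fin (m + 2) → ℤ)).det| ≤ R)
    (hspan : ∃ f : Fin (m + 2) → {x // x ∈ S},
      (Matrix.of fun i => (Fin.cons 1 (X (f i)) : Fin (m + 2) → ℤ)).det ≠ 0)
    (Ψ : (Fin (m + 1) → ℤ) ≃ₗ[ℤ] (Fin (m + 1) → ℤ))
    (hB : (Finset.univ.image fun i => fun p : Fin m => Ψ (X i) p.succ).card ≤ m + 1) :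
    S.card ≤ (m + 1) * (R + 1) ∧ (S.card = (m + 1) * (R + 1) →
      ∃ Θ : (Fin (m + 1) → ℝ) ≃ᵃ[ℝ] (Fin (m + 1) → ℝ),
        Θ '' (S : Set (Fin (m + 1) → ℝ)) = modelSet (m + 1) S.card) := by
  classical
  set s : {x // x ∈ S} → ℤ := fun i => Ψ (X i) 0 with hs
  set x : {x // x ∈ S} → Fin m → ℤ := fun i => fun p : Fin m => Ψ (X i) p.succ with hx
  have hcons : ∀ i, (Fin.cons (s i) (x i) : Fin (m + 1) → ℤ) = Ψ (X i) := by
    intro i
    funext p
    refine Fin.cases ?_ (fun p => ?_) p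
    · rfl
    · rfl
  have habs : ∀ f : Fin (m + 2) → {x // x ∈ S},
      |(MM (fun i => s (f i)) (fun i => (Fin.cons 1 (x (f i)) : Fin (m + 1) → ℤ))).det|
      = |(Matrix.of fun i => (Fin.cons 1 (X (f i)) : Fin (m + 2) → ℤ)).det| := by
    intro f
    rw [← det_swap (fun i => s (f i)) (fun i => x (f i)), ← det_unimodular Ψ (fun i => X (f i))]
    simp only [hcons]
  have hinj : ∀ i j, s i = s j → x i = x j → i = j := by
    intro i j h1 h2
    apply hXi
    apply Ψ.injective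
    rw [← hcons, ← hcons, h1, h2]
  have hR' : ∀ f : Fin (m + 2) → {x // x ∈ S},
      |(MM (fun i => s (f i)) (fun i => (Fin.cons 1 (x (f i)) : Fin (m + 1) → ℤ))).det| ≤ R := by
    intro f
    rw [habs]
    exact hdet f
  have hspan' : ∃ f : Fin (m + 2) → {x // x ∈ S},
      (MM (fun i => s (f i)) (fun i => (Fin.cons 1 (x (f i)) : Fin (m + 1) → ℤ))).det ≠ 0 := by
    obtain ⟨f, hf⟩ := hspan
    refine ⟨f, ?_⟩
    rw [← abs_ne_zero, habs, abs_ne_zero]
    exact hf
  obtain ⟨hcard, a, ha, hall, heq⟩ := simple_structure s x R hinj hR' hspan' hB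
  rw [Fintype.card_coe] at hcard heq
  refine ⟨hcard, fun hc => ?_⟩
  obtain ⟨Θ0, hΘ0⟩ := exists_affine (fun k => s (a k)) (fun k => x (a k)) ha
  obtain ⟨Ψ', hΨ'⟩ := realize Ψ
  have hmain : ∀ i : {x // x ∈ S}, ∀ k : Fin (m + 1), ∀ j : ℕ, x i = x (a k) →
      s i = s (a k) + j → Θ0 (modelPt (m + 1) k j) = Ψ' (Φ (i : Fin (m + 1) → ℝ)) := by
    intro i k j h1 h2
    rw [hX, hΨ', ← hcons]
    have h3 := hΘ0 k (j : ℝ)
    unfold modelPt
    rw [h3]
    funext p
    refine Fin.cases ?_ (fun p => ?_) p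
    · simp [h2]
    · simp [h1]
  refine ⟨(Φ.trans Ψ'.toAffineEquiv).trans Θ0.symm, ?_⟩
  rw [hc, modelSet_eq]
  ext y
  constructor
  · rintro ⟨z, hz, rfl⟩
    obtain ⟨k, j, hj, h1, h2⟩ := hall ⟨z, hz⟩
    refine ⟨k, j, hj, ?_⟩
    have h3 := hmain ⟨z, hz⟩ k j h1 h2
    change Θ0.symm (Ψ' (Φ z)) = _
    rw [← h3, AffineEquiv.symm_apply_apply]
  · rintro ⟨k, j, hj, rfl⟩
    obtain ⟨i, h1, h2⟩ := heq hc k j hj
    refine ⟨(i : Fin (m + 1) → ℝ), i.2, ?_⟩
    change Θ0.symm (Ψ' (Φ i)) = _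
    rw [← hmain i k j h1 h2, AffineEquiv.symm_apply_apply]

end Pool.Agent.Helper16.LS
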